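import Pool.Agent.V5helper32.CM.Stm

/-!
# Project CM, job DUAL: the contragredient data
-/

namespace Pool.Agent.V5helper46.CM

open Pool.Agent.V5helper32.CM Matrix

section

variable {n : ℕ}

theorem dualG_val (g : Gl n) : (dualG g).val = (g⁻¹).val.transpose := rfl

theorem dualG_mul_T (g : Gl n) : (dualG g).val * g.val.transpose = 1 := by
  rw [dualG_val, ← transpose_mul, ← Units.val_mul, mul_inv_cancel, Units.val_one, transpose_one]

/-- The ranks of `g - 1` and of the same matrix for the contragredient agree. -/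
theorem rank_dual (g : Gl n) : ((dualG g).val - 1).rank = (g.val - 1).rank := by
  have h1 : (dualG g).val - 1 = (dualG g).val * (-(g.val - 1)).transpose := by
    rw [transpose_neg, transpose_sub, transpose_one, mul_neg, mul_sub, mul_one, dualG_mul_T]
    abel
  have h2 : IsUnit ((dualG g).val).det := by
    have := (dualG g).isUnit
    exact (Matrix.isUnit_iff_isUnit_det _).mp this
  rw [h1, rank_mul_eq_right_of_isUnit_det _ _ h2, rank_transpose]
  have h3 : -(g.val - 1) = (g.val - 1) * (-1 : Matrix (Fin n) (Fin n) ℂ) := by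
    rw [mul_neg, mul_one]
  have h4 : IsUnit ((-1 : Matrix (Fin n) (Fin n) ℂ)).det := by
    rw [det_neg, det_one, mul_one]
    exact (isUnit_one.neg).pow _
  rw [h3, rank_mul_eq_left_of_isUnit_det _ _ h4]

/-- The positive matrix of `g`. -/
def PP (g : Gl n) : Matrix (Fin n) (Fin n) ℂ := g.valᴴ * g.val

theorem PP_mul (g h : Gl n) : PP (g * h) = h.valᴴ * PP g * h.val := by
  unfold PP
  rw [Units.val_mul, conjTranspose_mul]
  simp only [Matrix.mul_assoc]

variable {W : Type} [Group W] [Fintype W]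

/-- The invariant positive matrix. -/
noncomputable def BB (D : Rd n W) : Matrix (Fin n) (Fin n) ℂ :=
  ∑ k ∈ Finset.range D.m, ∑ w : W, PP (D.ρ w * D.t ^ k)

theorem BB_t (D : Rd n W) : D.t.valᴴ * BB D * D.t.val = BB D := by
  unfold BB
  rw [Finset.mul_sum, Finset.sum_mul]
  have h1 : ∀ k, D.t.valᴴ * (∑ w : W, PP (D.ρ w * D.t ^ k)) * D.t.val =
      ∑ w : W, PP (D.ρ w * D.t ^ (k + 1)) := by
    intro k
    rw [Finset.mul_sum, Finset.sum_mul]
    apply Finset.sum_congr rfl
    intro w _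
    rw [← PP_mul, pow_succ, mul_assoc]
  rw [Finset.sum_congr rfl fun k _ => h1 k]
  have h2 := Finset.sum_range_succ' (fun k => ∑ w : W, PP (D.ρ w * D.t ^ k)) D.m
  have h3 := Finset.sum_range_succ (fun k => ∑ w : W, PP (D.ρ w * D.t ^ k)) D.m
  rw [h3, D.tm, pow_zero] at h2
  exact (add_right_cancel h2).symm

theorem tpow (D : Rd n W) (k : ℕ) (u : W) :
    ∃ u' : W, D.t ^ k * D.ρ u = D.ρ u' * D.t ^ k := by
  induction k with
  | zero => exact ⟨u, by rw [pow_zero, one_mul, mul_one]⟩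
  | succ k ih =>
    obtain ⟨u', hu'⟩ := ih
    refine ⟨D.θ u', ?_⟩
    rw [pow_succ', mul_assoc, hu', D.tρ]
    group

theorem BB_ρ (D : Rd n W) (u : W) : (D.ρ u).valᴴ * BB D * (D.ρ u).val = BB D := by
  unfold BB
  rw [Finset.mul_sum, Finset.sum_mul]
  apply Finset.sum_congr rfl
  intro k _
  obtain ⟨u', hu'⟩ := tpow D k u
  rw [Finset.mul_sum, Finset.sum_mul,
    ← Equiv.sum_comp (Equiv.mulRight u') (fun w => PP (D.ρ w * D.t ^ k))]
  apply Finset.sum_congr rfl
  intro w _
  rw [← PP_mul, mul_assoc, hu', ← mul_assoc, Equiv.coe_mulRight, map_mul]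

open ComplexOrder in
theorem BB_inj (D : Rd n W) (x : Fin n → ℂ) (hx : BB D *ᵥ x = 0) : x = 0 := by
  have h1 : star x ⬝ᵥ (BB D *ᵥ x) = 0 := by rw [hx, dotProduct_zero]
  have h2 : ∀ g : Gl n, star x ⬝ᵥ (PP g *ᵥ x) = star (g.val *ᵥ x) ⬝ᵥ (g.val *ᵥ x) := by
    intro g
    unfold PP
    rw [← mulVec_mulVec, dotProduct_mulVec, star_mulVec]
  have h3 : star x ⬝ᵥ (BB D *ᵥ x) = ∑ k ∈ Finset.range D.m, ∑ w : W,
      star ((D.ρ w * D.t ^ k).val *ᵥ x) ⬝ᵥ ((D.ρ w * D.t ^ k).val *ᵥ x) := by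
    unfold BB
    rw [sum_mulVec, dotProduct_sum]
    apply Finset.sum_congr rfl
    intro k _
    rw [sum_mulVec, dotProduct_sum]
    apply Finset.sum_congr rfl
    intro w _
    exact h2 _
  rw [h3] at h1
  rw [Finset.sum_eq_zero_iff_of_nonneg] at h1
  swap
  · intro k _
    exact Finset.sum_nonneg fun w _ => dotProduct_star_self_nonneg _
  have h4 := h1 0 (Finset.mem_range.mpr D.mpos)
  rw [Finset.sum_eq_zero_iff_of_nonneg] at h4
  swap
  · intro w _
    exact dotProduct_star_self_nonneg _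
  have h5 := h4 1 (Finset.mem_univ _)
  rw [map_one, pow_zero, mul_one, Units.val_one, one_mulVec] at h5
  exact dotProduct_star_self_eq_zero.mp h5

/-- The regular vector of the contragredient. -/
noncomputable def dv (D : Rd n W) : Fin n → ℂ := star (BB D *ᵥ D.v)

theorem dualG_dv (D : Rd n W) (g : Gl n) (hg : g.valᴴ * BB D * g.val = BB D) :
    (dualG g).val *ᵥ dv D = star (BB D *ᵥ (g.val *ᵥ D.v)) := by
  have h1 : BB D * g.val = (g⁻¹).valᴴ * BB D := by
    have h2 : (g⁻¹).valᴴ * (g.valᴴ * BB D * g.val) = BB D * g.val := by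
      rw [← Matrix.mul_assoc, ← Matrix.mul_assoc, ← conjTranspose_mul, ← Units.val_mul,
        mul_inv_cancel, Units.val_one, conjTranspose_one, one_mul]
    rw [← h2, hg]
  rw [mulVec_mulVec, h1, ← mulVec_mulVec]
  unfold dv
  rw [dualG_val]
  funext i
  simp only [mulVec, dotProduct, Pi.star_apply, star_sum, star_mul', conjTranspose_apply,
    transpose_apply, star_star]

end

theorem t_DUAL : S_DUAL := by
  intro n W _ _ D
  refine ⟨{ ρ := dualG.comp D.ρ, θ := D.θ, t := dualG D.t, m := D.m, mpos := D.mpos,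
            tm := ?_, tρ := ?_, refl := ?_, v := dv D, tv := ?_, vreg := ?_ }, rfl, rfl, rfl⟩
  · rw [← map_pow, D.tm, map_one]
  · intro w
    rw [MonoidHom.comp_apply, MonoidHom.comp_apply, D.tρ, map_mul, map_mul, map_inv]
  · rw [← D.refl]
    congr 1
    ext s
    rw [Set.mem_ofPred_eq, Set.mem_ofPred_eq, MonoidHom.comp_apply, rank_dual]
  · rw [dualG_dv D _ (BB_t D), D.tv]
    rfl
  · intro w hw
    rw [MonoidHom.comp_apply, dualG_dv D _ (BB_ρ D w)] at hw
    apply D.vreg
    have h1 : BB D *ᵥ ((D.ρ w).val *ᵥ D.v) = BB D *ᵥ D.v := star_injective hw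
    have h2 : BB D *ᵥ ((D.ρ w).val *ᵥ D.v - D.v) = 0 := by
      rw [mulVec_sub, h1, sub_self]
    exact sub_eq_zero.mp (BB_inj D _ h2)

end Pool.Agent.V5helper46.CM
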