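import Pool.Agent.V5helper32.CM.Stm

/-!
# Project CM, job HILC: change of the degrees in an iterated difference operator
-/

namespace Pool.Agent.V5helper46.CM

open Pool.Agent.V5helper32.CM

theorem dif_comm (d e : ℤ) (h : ℤ → ℤ) : dif d (dif e h) = dif e (dif d h) := by
  funext j
  unfold dif
  rw [show j - e - d = j - d - e by ring]
  ring

theorem dif_difs (d : ℤ) (es : List ℤ) (h : ℤ → ℤ) : dif d (difs es h) = difs es (dif d h) := by
  induction es with
  | nil => rfl
  | cons e es ih =>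
    change dif d (dif e (difs es h)) = dif e (difs es (dif d h))
    rw [dif_comm, ih]

theorem difs_comm (ds es : List ℤ) (h : ℤ → ℤ) : difs ds (difs es h) = difs es (difs ds h) := by
  induction ds with
  | nil => rfl
  | cons d ds ih =>
    change dif d (difs ds (difs es h)) = difs es (dif d (difs ds h))
    rw [ih, dif_difs]

theorem dif_fin (d : ℤ) (h : ℤ → ℤ) (hf : (Function.support h).Finite) :
    (Function.support (dif d h)).Finite := by
  refine (hf.union (hf.image fun j => j + d)).subset ?_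
  intro j hj
  by_contra hc
  rw [Set.mem_union, not_or] at hc
  apply hj
  have h1 : h j = 0 := by
    by_contra h1
    exact hc.1 h1
  have h2 : h (j - d) = 0 := by
    by_contra h2
    exact hc.2 ⟨j - d, h2, by ring⟩
  unfold dif
  rw [h1, h2, sub_zero]

theorem difs_fin (ds : List ℤ) (h : ℤ → ℤ) (hf : (Function.support h).Finite) :
    (Function.support (difs ds h)).Finite := by
  induction ds with
  | nil => exact hf
  | cons d ds ih => exact dif_fin d _ ih

open LaurentPolynomial

/-- The Laurent polynomial with the given coefficients. -/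
noncomputable def toL (h : ℤ → ℤ) : ℤ[T;T⁻¹] := ∑ᶠ j, C (h j) * T j

theorem sup_toL (h : ℤ → ℤ) (hf : (Function.support h).Finite) :
    (Function.support fun j => (C (h j) * T j : ℤ[T;T⁻¹])).Finite := by
  refine hf.subset fun j hj => ?_
  intro hc
  apply hj
  change (C (h j) * T j : ℤ[T;T⁻¹]) = 0
  rw [hc, map_zero, zero_mul]

theorem toL_dif (d : ℤ) (h : ℤ → ℤ) (hf : (Function.support h).Finite) :
    toL (dif d h) = (1 - T d) * toL h := by
  have hs := sup_toL h hf
  have hd : (Function.support fun j => h (j - d)).Finite := by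
    refine (hf.image fun j => j + d).subset ?_
    intro j hj
    exact ⟨j - d, hj, by ring⟩
  have hs' : (Function.support fun j => (C (h (j - d)) * T j : ℤ[T;T⁻¹])).Finite := by
    refine hd.subset fun j hj => ?_
    intro hc
    apply hj
    change (C (h (j - d)) * T j : ℤ[T;T⁻¹]) = 0
    have hc' : h (j - d) = 0 := hc
    rw [hc', map_zero, zero_mul]
  have h1 : toL (dif d h) = (∑ᶠ j, (C (h j) * T j : ℤ[T;T⁻¹])) - ∑ᶠ j, C (h (j - d)) * T j := by
    rw [← finsum_sub_distrib hs hs']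
    unfold toL
    apply finsum_congr
    intro j
    unfold dif
    rw [map_sub, sub_mul]
  have h2 : (∑ᶠ j, (C (h (j - d)) * T j : ℤ[T;T⁻¹])) = T d * toL h := by
    have h3 := finsum_comp_equiv (Equiv.addRight d)
      (f := fun j => (C (h (j - d)) * T j : ℤ[T;T⁻¹]))
    rw [← h3]
    unfold toL
    rw [mul_finsum]
    apply finsum_congr
    intro j
    simp only [Equiv.coe_addRight, add_sub_cancel_right]
    rw [T_add]
    ring
  rw [h1, h2, sub_mul, one_mul]
  rfl

theorem toL_difs (ds : List ℤ) (h : ℤ → ℤ) (hf : (Function.support h).Finite) :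
    toL (difs ds h) = (ds.map fun d => (1 - T d : ℤ[T;T⁻¹])).prod * toL h := by
  induction ds with
  | nil =>
    rw [List.map_nil, List.prod_nil, one_mul]
    rfl
  | cons d ds ih =>
    change toL (dif d (difs ds h)) = _
    rw [toL_dif d _ (difs_fin ds h hf), ih, List.map_cons, List.prod_cons, mul_assoc]

/-- Evaluation at `1`. -/
noncomputable def ev1 : ℤ[T;T⁻¹] →+* ℤ := eval₂ (RingHom.id ℤ) 1

theorem ev1_T (n : ℤ) : ev1 (T n) = 1 := by
  unfold ev1
  rw [eval₂_T, one_zpow, Units.val_one]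

theorem ev1_toL (h : ℤ → ℤ) (hf : (Function.support h).Finite) : ev1 (toL h) = ∑ᶠ j, h j := by
  unfold toL
  have := AddMonoidHom.map_finsum (ev1 : ℤ[T;T⁻¹] →+* ℤ).toAddMonoidHom (sup_toL h hf)
  change ev1.toAddMonoidHom _ = _
  rw [this]
  apply finsum_congr
  intro j
  change ev1 (C (h j) * T j) = h j
  rw [map_mul, ev1_T, mul_one]
  unfold ev1
  rw [eval₂_C]
  rfl

theorem fac (ds : List ℤ) (hd : ∀ d ∈ ds, 0 < d) : ∃ B : ℤ[T;T⁻¹],
    (ds.map fun d => (1 - T d : ℤ[T;T⁻¹])).prod = (1 - T 1) ^ ds.length * B ∧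
      ev1 B = ds.prod := by
  induction ds with
  | nil => exact ⟨1, by simp, by simp⟩
  | cons d ds ih =>
    obtain ⟨B, hB, hB'⟩ := ih fun e he => hd e (List.mem_cons_of_mem _ he)
    have hd0 : 0 < d := hd d List.mem_cons_self
    obtain ⟨n, rfl⟩ : ∃ n : ℕ, d = n := ⟨d.toNat, by omega⟩
    refine ⟨(∑ i ∈ Finset.range n, (T 1 : ℤ[T;T⁻¹]) ^ i) * B, ?_, ?_⟩
    · rw [List.map_cons, List.prod_cons, hB]
      have h1 : (1 - T (n : ℤ) : ℤ[T;T⁻¹]) =
          (1 - T 1) * ∑ i ∈ Finset.range n, (T 1 : ℤ[T;T⁻¹]) ^ i := by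
        rw [mul_neg_geom_sum, T_pow, mul_one]
      rw [h1, List.length_cons]
      ring
    · rw [map_mul, hB', map_sum, List.prod_cons]
      congr 1
      rw [Finset.sum_congr rfl (g := fun _ => (1 : ℤ))]
      · simp
      · intro i _
        rw [map_pow, ev1_T, one_pow]

theorem one_sub_T_ne : (1 - T 1 : ℤ[T;T⁻¹]) ≠ 0 := by
  intro h
  have h1 : (T 0 : ℤ[T;T⁻¹]) = T 1 := by
    rw [T_zero]
    exact sub_eq_zero.mp h
  have h2 := congrArg (eval₂ (RingHom.id ℤ) (-1 : ℤˣ)) h1
  rw [eval₂_T, eval₂_T] at h2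
  simp at h2

theorem t_HILC : S_HILC := by
  intro ds ds' h hd hd' hl hf hf'
  obtain ⟨B, hB, hB'⟩ := fac ds hd
  obtain ⟨B', hB1, hB1'⟩ := fac ds' hd'
  have h1 : toL (difs ds' (difs ds h)) = toL (difs ds (difs ds' h)) := by
    rw [difs_comm]
  rw [toL_difs ds' _ hf, toL_difs ds _ hf', hB, hB1] at h1
  obtain ⟨c, hc⟩ := Nat.exists_eq_add_of_le hl
  rw [hc, pow_add] at h1
  have h2 : (1 - T 1 : ℤ[T;T⁻¹]) ^ ds'.length *
      (B' * toL (difs ds h) - (1 - T 1) ^ c * B * toL (difs ds' h)) = 0 := by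
    linear_combination h1
  rcases mul_eq_zero.mp h2 with h3 | h3
  · exact absurd (pow_ne_zero _ one_sub_T_ne) (not_not_intro h3)
  · have h4 := congrArg ev1 (sub_eq_zero.mp h3)
    rw [map_mul, map_mul, map_mul, map_pow, hB', hB1', ev1_toL _ hf, ev1_toL _ hf', map_sub,
      map_one, ev1_T, sub_self] at h4
    rw [h4, hc, Nat.add_sub_cancel_left]

end Pool.Agent.V5helper46.CM
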