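import Pool.Agent.V5helper46.CM.TR8

/-!
# Project CM, job TRACE
-/

namespace Pool.Agent.V5helper46.CM

open Pool.Agent.V5helper32.CM MvPolynomial
open scoped TensorProduct

section

variable {n : ℕ} {W : Type} [Group W] [Fintype W] {D : Rd n W} {H : Type} [Ring H] [Algebra ℂ H]
  {Λ : Type} [Ring Λ] [Algebra ℂ Λ] {Sp : Type} [AddCommGroup Sp] [Module ℂ Sp]
  [Module Λ Sp] [IsScalarTower ℂ Λ Sp] (A : Su D H Λ Sp)

/-- The elements of the centre which kill the part of the idempotent `z1`. -/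
def annI (z1 : Zc H) : Ideal (Zc H) where
  carrier := {c | ∀ x : Sp ⧸ NN A, A.s.ι z1 • x = x → A.s.ι c • x = 0}
  add_mem' := by
    intro a b ha hb x hx
    rw [map_add, add_smul, ha x hx, hb x hx, add_zero]
  zero_mem' := by
    intro x _
    rw [map_zero, zero_smul]
  smul_mem' := by
    intro b c hc x hx
    rw [smul_eq_mul, map_mul, mul_smul, hc x hx, smul_zero]

theorem gsp_iff (hOM : S_OM) (S : IrrSys W) (p : Zc H →ₐ[ℂ] ℂ) (hPG : PG A.Φ p) (z1 : Zc H)
    (a1 : MonoidAlgebra ℂ W) (hza : Cong A.Φ z1 a1) (hp : p z1 = 1)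
    (h0 : ∀ i, ¬ Fam A.Φ p (S.ρ i) → (S.ρ i).asAlgebraHom a1 = 0)
    (hid : ∀ x : Sp ⧸ NN A, A.s.ι z1 • A.s.ι z1 • x = A.s.ι z1 • x) (x : Sp ⧸ NN A) :
    x ∈ gsp A.s.ι p (Sp ⧸ NN A) ↔ A.s.ι z1 • x = x := by
  constructor
  · intro hx
    obtain ⟨N, hN⟩ := hx z1
    rw [hp, map_one] at hN
    revert x
    induction N with
    | zero =>
      intro x _ hN
      rw [pow_zero, one_smul] at hN
      rw [hN, smul_zero]
    | succ N ih =>
      intro x _ hN
      rw [pow_succ, mul_smul] at hN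
      have h2 : A.s.ι z1 • ((A.s.ι z1 - 1) • x) = 0 := by
        rw [sub_smul, one_smul, smul_sub, hid, sub_self]
      have h3 : ∀ (M : ℕ) (y : Sp ⧸ NN A), (A.s.ι z1 - 1) ^ M • y = 0 → A.s.ι z1 • y = 0 →
          y = 0 := by
        intro M
        induction M with
        | zero => intro y hy _; rwa [pow_zero, one_smul] at hy
        | succ M ihM =>
          intro y hy hy'
          rw [pow_succ, mul_smul, sub_smul, one_smul, hy', zero_sub, smul_neg, neg_eq_zero] at hy
          exact ihM y hy hy'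
      have h4 := h3 N _ hN h2
      rwa [sub_smul, one_smul, sub_eq_zero] at h4
  · intro hx z
    have hpow : ∀ (K : ℕ), A.s.ι z1 ^ K • x = x := by
      intro K
      induction K with
      | zero => rw [pow_zero, one_smul]
      | succ K ih => rw [pow_succ, mul_smul, hx, ih]
    obtain ⟨J, zd, hz, hzd⟩ := (hOM n W D H A.Φ).2.2.2.2.2 z
    have hne : ∀ d, d ≠ 0 → p (zd d) = 0 := by
      intro d hd
      have h2 : (2 : ℂ) ≠ 0 := two_ne_zero
      set s : ℂˣ := Units.mk0 2 h2 with hs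
      have h3 := hPG s (zd d) (((s ^ d : ℂˣ) : ℂ) • zd d) (by
        rw [hzd]
        rfl)
      rw [map_smul, smul_eq_mul] at h3
      by_contra hne
      have h4 : ((s ^ d : ℂˣ) : ℂ) = 1 := by
        have := mul_right_cancel₀ hne (h3.trans (one_mul _).symm)
        exact this
      have h5 := congrArg norm h4
      rw [Units.val_zpow_eq_zpow_val, norm_zpow, hs, Units.val_mk0, Complex.norm_two,
        norm_one] at h5
      exact hd ((zpow_eq_one_iff_right₀ (by norm_num) (by norm_num)).mp h5)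
    have hrad : ∀ d, zd d - algebraMap ℂ (Zc H) (p (zd d)) ∈ (annI A z1).radical := by
      intro d
      by_cases hd : d = 0
      · subst hd
        have hfix : ∀ s, A.Φ.γ s (zd 0 : H) = zd 0 := by
          intro s
          rw [hzd, zpow_zero, Units.val_one, one_smul]
        obtain ⟨b, hb⟩ := (hOM n W D H A.Φ).1 (zd 0 : H) hfix
        have hb' : Cong A.Φ (zd 0) b := hb
        have hc := cong_mul hOM A.Φ _ _ _ _
          (cong_sub A.Φ _ _ _ _ hb' (cong_alg A.Φ (p (zd 0)))) hza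
        have hz0 : (b - algebraMap ℂ (MonoidAlgebra ℂ W) (p (zd 0))) * a1 = 0 := by
          apply faith S
          intro i
          by_cases hF : Fam A.Φ p (S.ρ i)
          · have h6 : (S.ρ i).asAlgebraHom b - algebraMap ℂ (Module.End ℂ (S.E i))
                (p (zd 0)) = 0 := by
              apply LinearMap.ext
              intro y
              rw [LinearMap.sub_apply, hF (zd 0) b hfix hb y]
              change p (zd 0) • y - p (zd 0) • y = 0
              rw [sub_self]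
            rw [map_mul, map_sub, AlgHom.commutes]
            have h7 : (S.ρ i).asAlgebraHom b - algebraMap ℂ (S.E i →ₗ[ℂ] S.E i)
                (p (zd 0)) = 0 := h6
            rw [h7, zero_mul]
          · rw [map_mul, h0 i hF, mul_zero]
        rw [hz0] at hc
        obtain ⟨K, hK⟩ := NIL A _ hc
        refine ⟨K, ?_⟩
        intro y hy
        have hpow' : ∀ (K : ℕ), A.s.ι z1 ^ K • y = y := by
          intro K
          induction K with
          | zero => rw [pow_zero, one_smul]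
          | succ K ih => rw [pow_succ, mul_smul, hy, ih]
        have h8 := hK y
        rw [← map_pow, mul_pow, map_mul, mul_smul, map_pow _ z1, hpow'] at h8
        exact h8
      · rw [hne d hd, map_zero, sub_zero]
        obtain ⟨K, hK⟩ := deg_nil A (zd d) d hd (hzd d)
        refine ⟨K, ?_⟩
        intro y _
        rw [map_pow]
        exact hK y
    have hsum : z - algebraMap ℂ (Zc H) (p z) =
        ∑ d ∈ J, (zd d - algebraMap ℂ (Zc H) (p (zd d))) := by
      rw [Finset.sum_sub_distrib, ← map_sum, ← map_sum, ← hz]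
    have hmem : z - algebraMap ℂ (Zc H) (p z) ∈ (annI A z1).radical := by
      rw [hsum]
      exact Ideal.sum_mem _ fun d _ => hrad d
    obtain ⟨N, hN⟩ := hmem
    refine ⟨N, ?_⟩
    have h9 := hN x hx
    rw [map_pow, map_sub, AlgHom.commutes] at h9
    exact h9

theorem gsp_t (p : Zc H →ₐ[ℂ] ℂ) (hPS : PS A.Φ p) (x : Sp ⧸ NN A)
    (hx : x ∈ gsp A.s.ι p (Sp ⧸ NN A)) : A.s.t • x ∈ gsp A.s.ι p (Sp ⧸ NN A) := by
  intro z
  obtain ⟨z', rfl⟩ := A.σ.surjective z
  obtain ⟨N, hN⟩ := hx z'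
  refine ⟨N, ?_⟩
  have h1 : p (A.σ z') = p z' := hPS z' (A.σ z') (A.hσ z')
  have h2 : SemiconjBy A.s.t (A.s.ι z' - algebraMap ℂ Λ (p z'))
      (A.s.ι (A.σ z') - algebraMap ℂ Λ (p (A.σ z'))) := by
    unfold SemiconjBy
    rw [mul_sub, sub_mul, A.s.comm, h1, Algebra.commutes]
  have h3 := h2.pow_right N
  unfold SemiconjBy at h3
  rw [smul_smul, ← h3, mul_smul, hN, smul_zero]

end

theorem t_TRACE (hOM : S_OM) : S_TRACE := by
  intro n W _ _ D H _ _ Λ _ _ Sp _ _ _ _ A p hPG hPS S U hU T hT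
  obtain ⟨z1, a1, hza, hp, h0, h1, hid⟩ := step3 A hOM S p
  have hg := gsp_iff A hOM S p hPG z1 a1 hza hp h0 hid
  have ht : ∀ m ∈ gsp A.s.ι p (Sp ⧸ NN A), Algebra.lsmul ℂ ℂ (Sp ⧸ NN A) A.s.t m ∈
      gsp A.s.ι p (Sp ⧸ NN A) := gsp_t A p hPS
  have hphi : phi A.s.ι p A.s.t (Sp ⧸ NN A) =
      LinearMap.trace ℂ (gsp A.s.ι p (Sp ⧸ NN A))
        ((Algebra.lsmul ℂ ℂ (Sp ⧸ NN A) A.s.t).restrict ht) := by
    unfold phi
    rw [dif_pos ht]
  change phi A.s.ι p A.s.t (Sp ⧸ NN A) = _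
  rw [hphi]
  set f : Module.End ℂ (Sp ⧸ NN A) := Algebra.lsmul ℂ ℂ (Sp ⧸ NN A) A.s.t *
    Algebra.lsmul ℂ ℂ (Sp ⧸ NN A) (A.s.ι z1) with hf
  have hfx : ∀ x, f x = A.s.t • A.s.ι z1 • x := fun x => rfl
  have hf1 : ∀ x, f x ∈ gsp A.s.ι p (Sp ⧸ NN A) := by
    intro x
    rw [hfx]
    apply ht
    rw [hg]
    exact hid x
  have hf2 := LinearMap.trace_restrict_eq_of_forall_mem (gsp A.s.ι p (Sp ⧸ NN A)) f hf1
  have hf3 : (Algebra.lsmul ℂ ℂ (Sp ⧸ NN A) A.s.t).restrict ht =
      f.restrict (fun x _ => hf1 x) := by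
    apply LinearMap.ext
    intro x
    apply Subtype.ext
    change A.s.t • (x : Sp ⧸ NN A) = A.s.t • A.s.ι z1 • (x : Sp ⧸ NN A)
    rw [(hg x).mp x.2]
  rw [hf3, hf2, hf, TRA A z1 a1 hza]
  -- the other side
  set f' : Module.End ℂ (MonoidAlgebra ℂ W) := eW.symm.conj (θX D * aX a1) with hf'
  have hf'x : ∀ b, f' b = MonoidAlgebra.mapDomain D.θ (a1 * b) := by
    intro b
    rw [hf', LinearEquiv.conj_apply_apply, LinearEquiv.symm_symm, Module.End.mul_apply,
      ← eW_mul, ← eW_θ, LinearEquiv.symm_apply_apply]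
  have htr : LinearMap.trace ℂ (MonoidAlgebra ℂ W) f' =
      LinearMap.trace ℂ (W → ℂ) (θX D * aX a1) := LinearMap.trace_conj' _ _
  rw [← htr]
  have : Module.Finite ℂ (MonoidAlgebra ℂ W) := Module.Finite.equiv eW.symm
  have hU1 : ∀ b, a1 * b ∈ U := by
    intro b
    rw [hU]
    intro i hi
    rw [map_mul, h0 i hi, zero_mul]
  have hf'1 : ∀ b, f' b ∈ U := by
    intro b
    rw [hf'x, ← hT ⟨a1 * b, hU1 b⟩]
    exact (T _).2
  have hU2 : ∀ u ∈ U, a1 * u = u := by
    intro u hu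
    rw [← sub_eq_zero]
    apply faith S
    intro i
    by_cases hF : Fam A.Φ p (S.ρ i)
    · rw [map_sub, map_mul, h1 i hF, one_mul, sub_self]
    · rw [map_sub, map_mul, h0 i hF, (hU u).mp hu i hF, mul_zero, sub_zero]
  have hf'2 := LinearMap.trace_restrict_eq_of_forall_mem U f' hf'1
  have hf'3 : T = f'.restrict (fun x _ => hf'1 x) := by
    apply LinearMap.ext
    intro u
    apply Subtype.ext
    rw [hT]
    change _ = f' (u : MonoidAlgebra ℂ W)
    rw [hf'x, hU2 _ u.2]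
  rw [hf'3, hf'2]

end Pool.Agent.V5helper46.CM
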