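import Pool.Agent.V5helper32.CM.Stm2

/-!
# Project CM, job TRACE, part 1: the functional on the algebra `H`
-/

namespace Pool.Agent.V5helper46.CM

open Pool.Agent.V5helper32.CM MvPolynomial
open scoped TensorProduct

section

variable {n : ℕ} {W : Type} [Group W] [Fintype W] {D : Rd n W} {H : Type} [Ring H] [Algebra ℂ H]

section tri

variable (T : Tri D.ρ H)

theorem mu_tmul (w : W) (f g : MvPolynomial (Fin n) ℂ) :
    mu T.i T.j T.u w (f ⊗ₜ[ℂ] g) = T.i f * T.u w * T.j g := rfl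

/-- The PBW isomorphism. -/
noncomputable def pbwE :
    (W → MvPolynomial (Fin n) ℂ ⊗[ℂ] MvPolynomial (Fin n) ℂ) ≃ₗ[ℂ] H :=
  LinearEquiv.ofBijective (∑ w, mu T.i T.j T.u w ∘ₗ LinearMap.proj w) (by
    have h := T.pbw
    convert h using 1
    funext q
    rw [LinearMap.sum_apply]
    rfl)

open Classical in
theorem pbwE_single (w : W) (q : MvPolynomial (Fin n) ℂ ⊗[ℂ] MvPolynomial (Fin n) ℂ) :
    pbwE T (Pi.single w q) = mu T.i T.j T.u w q := by
  unfold pbwE
  rw [LinearEquiv.ofBijective_apply, LinearMap.sum_apply, Finset.sum_eq_single w]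
  · rw [LinearMap.comp_apply, LinearMap.proj_apply, Pi.single_eq_same]
  · intro v _ hv
    rw [LinearMap.comp_apply, LinearMap.proj_apply, Pi.single_eq_of_ne hv, map_zero]
  · intro h
    exact absurd (Finset.mem_univ _) h

theorem ind {P : H → Prop} (h1 : ∀ f w g, P (T.i f * T.u w * T.j g))
    (h2 : ∀ a b, P a → P b → P (a + b)) (h : H) : P h := by
  have h0 : P 0 := by
    have := h1 0 1 0
    rwa [map_zero, zero_mul, zero_mul] at this
  obtain ⟨q, rfl⟩ := T.pbw.2 h
  have h3 : ∀ w (x : MvPolynomial (Fin n) ℂ ⊗[ℂ] MvPolynomial (Fin n) ℂ),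
      P (mu T.i T.j T.u w x) := by
    intro w x
    induction x using TensorProduct.induction_on with
    | zero => rw [map_zero]; exact h0
    | tmul f g => exact h1 f w g
    | add x y hx hy => rw [map_add]; exact h2 _ _ hx hy
  have h4 : ∀ s : Finset W, P (∑ w ∈ s, mu T.i T.j T.u w (q w)) := by
    classical
    intro s
    induction s using Finset.induction_on with
    | empty => rw [Finset.sum_empty]; exact h0
    | insert a s ha ih =>
      rw [Finset.sum_insert ha]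
      exact h2 _ _ (h3 _ _) ih
  exact h4 _

end tri

variable {Λ : Type} [Ring Λ] [Algebra ℂ Λ] {Sp : Type} [AddCommGroup Sp] [Module ℂ Sp]
  [Module Λ Sp] [IsScalarTower ℂ Λ Sp] (A : Su D H Λ Sp)

theorem CG_w (w : W) (g : MvPolynomial (Fin n) ℂ) (v : W) :
    A.CG.Ψ (act (dualG (D.ρ w)) g) v = A.CG.Ψ g (w⁻¹ * v) := by
  have h := A.CG.Ψw w g v
  rw [A.hρ] at h
  exact h

theorem CG_t (g : MvPolynomial (Fin n) ℂ) (v : W) :
    A.CG.Ψ (act (dualG D.t) g) v = A.CG.Ψ g (D.θ.symm v) := by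
  have h := A.CG.Ψt g v
  rw [A.ht, A.hθ] at h
  exact h

/-- Evaluation of `CF.Ψ` at `1`. -/
noncomputable def lam : MvPolynomial (Fin n) ℂ →ₗ[ℂ] ℂ := LinearMap.proj 1 ∘ₗ A.CF.Ψ

theorem lam_w (w : W) (f : MvPolynomial (Fin n) ℂ) :
    lam A (act (D.ρ w) f) = A.CF.Ψ f w⁻¹ := by
  unfold lam
  rw [LinearMap.comp_apply, LinearMap.proj_apply, A.CF.Ψw, mul_one]

theorem lam_t (f : MvPolynomial (Fin n) ℂ) :
    lam A (act D.t f) = lam A f := by
  unfold lam
  rw [LinearMap.comp_apply, LinearMap.proj_apply, A.CF.Ψt, map_one]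
  rfl

/-- The map on one PBW component. -/
noncomputable def pre (w : W) :
    MvPolynomial (Fin n) ℂ ⊗[ℂ] MvPolynomial (Fin n) ℂ →ₗ[ℂ] (W → ℂ) :=
  TensorProduct.lift (LinearMap.mk₂ ℂ (fun f g => lam A f • A.CG.Ψ (act (dualG (D.ρ w)) g))
    (fun f f' g => by rw [map_add, add_smul])
    (fun c f g => by rw [map_smul, smul_assoc])
    (fun f g g' => by rw [map_add, map_add, smul_add])
    (fun c f g => by rw [map_smul, map_smul, smul_comm]))

/-- The functional `i f u w j g ↦ λ(f) Ψ(w g)`. -/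
noncomputable def ThH : H →ₗ[ℂ] (W → ℂ) :=
  (∑ w, pre A w ∘ₗ LinearMap.proj w) ∘ₗ (pbwE A.Φ.T).symm.toLinearMap

theorem ThH_gen (f : MvPolynomial (Fin n) ℂ) (w : W) (g : MvPolynomial (Fin n) ℂ) :
    ThH A (A.Φ.T.i f * A.Φ.T.u w * A.Φ.T.j g) =
      lam A f • A.CG.Ψ (act (dualG (D.ρ w)) g) := by
  classical
  rw [← mu_tmul, ← pbwE_single]
  unfold ThH
  rw [LinearMap.comp_apply]
  change (∑ w, pre A w ∘ₗ LinearMap.proj w) ((pbwE A.Φ.T).symm (pbwE A.Φ.T _)) = _
  rw [LinearEquiv.symm_apply_apply, LinearMap.sum_apply, Finset.sum_eq_single w]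
  · rw [LinearMap.comp_apply, LinearMap.proj_apply, Pi.single_eq_same]
    rfl
  · intro v _ hv
    rw [LinearMap.comp_apply, LinearMap.proj_apply, Pi.single_eq_of_ne hv, map_zero]
  · intro h
    exact absurd (Finset.mem_univ _) h

end

end Pool.Agent.V5helper46.CM
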