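import Pool.Agent.V5helper46.CM.TR1

/-!
# Project CM, job TRACE, part 2: homogeneous ideals and the filtration
-/

namespace Pool.Agent.V5helper46.CM

open Pool.Agent.V5helper32.CM MvPolynomial
open scoped TensorProduct

section

variable {n : ℕ}

attribute [local instance] MvPolynomial.gradedAlgebra in
theorem comp_mem {k : ℕ} (f : Fin k → MvPolynomial (Fin n) ℂ) (d : Fin k → ℕ)
    (hom : ∀ i, (f i).IsHomogeneous (d i)) (h : MvPolynomial (Fin n) ℂ)
    (hh : h ∈ Ideal.span (Set.range f)) (e : ℕ) :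
    homogeneousComponent e h ∈ Ideal.span (Set.range f) := by
  have h1 : Ideal.IsHomogeneous (homogeneousSubmodule (Fin n) ℂ) (Ideal.span (Set.range f)) := by
    apply Ideal.homogeneous_span
    rintro x ⟨i, rfl⟩
    exact ⟨d i, (mem_homogeneousSubmodule _ _).mpr (hom i)⟩
  exact homogeneousComponent_mem_of_mem h1 hh e

theorem comp_pow (K : ℕ) (h : MvPolynomial (Fin n) ℂ)
    (hh : h ∈ (Ideal.span (Set.range X) : Ideal (MvPolynomial (Fin n) ℂ)) ^ K) (e : ℕ)
    (he : e < K) : homogeneousComponent e h = 0 := by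
  rw [mem_pow_idealOfVars_iff'] at hh
  ext x
  rw [coeff_homogeneousComponent, coeff_zero]
  split_ifs with h1
  · exact hh x (by rw [h1]; exact he)
  · rfl

theorem hom_pow (e : ℕ) (h : MvPolynomial (Fin n) ℂ) (hh : h.IsHomogeneous e) :
    h ∈ (Ideal.span (Set.range X) : Ideal (MvPolynomial (Fin n) ℂ)) ^ e := by
  rw [mem_pow_idealOfVars_iff']
  intro x hx
  exact hh.coeff_eq_zero (by omega)

/-- The image of the power of the irrelevant ideal. -/
noncomputable def Xk {W : Type} (Ψ : MvPolynomial (Fin n) ℂ →ₗ[ℂ] (W → ℂ)) (k : ℕ) :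
    Submodule ℂ (W → ℂ) :=
  (((Ideal.span (Set.range X) : Ideal (MvPolynomial (Fin n) ℂ)) ^ k).restrictScalars ℂ).map Ψ

theorem Xk_anti {W : Type} (Ψ : MvPolynomial (Fin n) ℂ →ₗ[ℂ] (W → ℂ)) : Antitone (Xk Ψ) := by
  intro a b hab
  apply Submodule.map_mono
  intro x hx
  exact Ideal.pow_le_pow_right hab hx

theorem Xk_bot {W : Type} [Fintype W] {k : ℕ} (f : Fin k → MvPolynomial (Fin n) ℂ)
    (d : Fin k → ℕ) (hom : ∀ i, (f i).IsHomogeneous (d i))
    (Ψ : MvPolynomial (Fin n) ℂ →ₗ[ℂ] (W → ℂ)) (ker : ∀ h, Ψ h = 0 ↔ h ∈ Ideal.span (Set.range f)) :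
    ∃ K, Xk Ψ K = ⊥ := by
  obtain ⟨K, hK⟩ := IsArtinian.monotone_stabilizes (R := ℂ) (M := W → ℂ)
    ⟨fun k => OrderDual.toDual (Xk Ψ k), fun a b hab => Xk_anti Ψ hab⟩
  have hK' : ∀ m, K ≤ m → Xk Ψ K = Xk Ψ m := fun m hm => hK m hm
  refine ⟨K, ?_⟩
  have h1 : ∀ e, K ≤ e → ∀ h : MvPolynomial (Fin n) ℂ, h.IsHomogeneous e → Ψ h = 0 := by
    intro e he h hh
    have h2 : Ψ h ∈ Xk Ψ (e + 1) := by
      rw [← hK' (e + 1) (by omega), hK' e he]
      exact ⟨h, hom_pow e h hh, rfl⟩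
    obtain ⟨h', hh', h3⟩ := h2
    have h4 : h - h' ∈ Ideal.span (Set.range f) := by
      rw [← ker, map_sub, h3, sub_self]
    have h5 := comp_mem f d hom _ h4 e
    rw [map_sub, comp_pow (e + 1) h' hh' e (by omega), sub_zero] at h5
    have h6 : homogeneousComponent e h = h := by
      rw [homogeneousComponent_of_mem ((mem_homogeneousSubmodule _ _).mpr hh), if_pos rfl]
    rw [h6] at h5
    exact (ker h).mpr h5
  rw [eq_bot_iff]
  rintro _ ⟨h, hh, rfl⟩
  rw [Submodule.mem_bot, ← sum_homogeneousComponent h, map_sum]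
  apply Finset.sum_eq_zero
  intro e _
  by_cases he : K ≤ e
  · exact h1 e he _ (homogeneousComponent_isHomogeneous e h)
  · rw [comp_pow K h hh e (by omega), map_zero]

theorem act_pow (g : Gl n) (k : ℕ) (h : MvPolynomial (Fin n) ℂ)
    (hh : h ∈ (Ideal.span (Set.range X) : Ideal (MvPolynomial (Fin n) ℂ)) ^ k) :
    act g h ∈ (Ideal.span (Set.range X) : Ideal (MvPolynomial (Fin n) ℂ)) ^ k := by
  have h1 : Ideal.map (act g) (Ideal.span (Set.range X) : Ideal (MvPolynomial (Fin n) ℂ)) ≤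
      Ideal.span (Set.range X) := by
    rw [Ideal.map_span, Ideal.span_le]
    rintro _ ⟨_, ⟨i, rfl⟩, rfl⟩
    rw [act, aeval_X]
    refine Ideal.sum_mem _ fun j _ => ?_
    exact Ideal.mul_mem_left _ _ (Ideal.subset_span ⟨j, rfl⟩)
  have h2 := Ideal.mem_map_of_mem (act g) hh
  rw [Ideal.map_pow] at h2
  exact Ideal.pow_right_mono h1 k h2

end

end Pool.Agent.V5helper46.CM
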