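import Pool.Agent.V5helper46.CM.TR2

/-!
# Project CM, job TRACE, part 3: properties of the functional
-/

namespace Pool.Agent.V5helper46.CM

open Pool.Agent.V5helper32.CM MvPolynomial
open scoped TensorProduct

section

variable {n : ℕ} {W : Type} [Group W] [Fintype W] {D : Rd n W} {H : Type} [Ring H] [Algebra ℂ H]

theorem j_u (T : Tri D.ρ H) (g : MvPolynomial (Fin n) ℂ) (w : W) :
    T.j g * T.u w = T.u w * T.j (act (dualG (D.ρ w⁻¹)) g) := by
  have h1 := T.uj w⁻¹ g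
  have h2 : T.u w * T.u w⁻¹ = 1 := by rw [← map_mul, mul_inv_cancel, map_one]
  have h3 : T.u w⁻¹ * T.u w = 1 := by rw [← map_mul, inv_mul_cancel, map_one]
  calc T.j g * T.u w = T.u w * T.u w⁻¹ * T.j g * T.u w := by rw [h2, one_mul]
    _ = T.u w * (T.u w⁻¹ * T.j g) * T.u w := by simp only [mul_assoc]
    _ = T.u w * T.j (act (dualG (D.ρ w⁻¹)) g) * (T.u w⁻¹ * T.u w) := by
        rw [h1]; simp only [mul_assoc]
    _ = _ := by rw [h3, mul_one]

/-- The sum of all group elements. -/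
noncomputable def eb (T : Tri D.ρ H) : H := ∑ w, T.u w

theorem u_eb (T : Tri D.ρ H) (w : W) : T.u w * eb T = eb T := by
  unfold eb
  rw [Finset.mul_sum, ← Equiv.sum_comp (Equiv.mulLeft w) T.u]
  apply Finset.sum_congr rfl
  intro v _
  rw [← map_mul, Equiv.coe_mulLeft]

theorem eb_u (T : Tri D.ρ H) (w : W) : eb T * T.u w = eb T := by
  unfold eb
  rw [Finset.sum_mul, ← Equiv.sum_comp (Equiv.mulRight w) T.u]
  apply Finset.sum_congr rfl
  intro v _
  rw [← map_mul, Equiv.coe_mulRight]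

theorem eb_eb (T : Tri D.ρ H) : eb T * eb T = (Fintype.card W : ℂ) • eb T := by
  have h1 : eb T * eb T = ∑ w, T.u w * eb T := by
    conv_lhs => rw [eb]
    rw [Finset.sum_mul]
    rfl
  rw [h1, Finset.sum_congr rfl fun w _ => u_eb T w, Finset.sum_const,
    Finset.card_univ, Nat.cast_smul_eq_nsmul]

variable {Λ : Type} [Ring Λ] [Algebra ℂ Λ] {Sp : Type} [AddCommGroup Sp] [Module ℂ Sp]
  [Module Λ Sp] [IsScalarTower ℂ Λ Sp] (A : Su D H Λ Sp)

theorem ThH_app (f : MvPolynomial (Fin n) ℂ) (w : W) (g : MvPolynomial (Fin n) ℂ) (v : W) :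
    ThH A (A.Φ.T.i f * A.Φ.T.u w * A.Φ.T.j g) v = lam A f * A.CG.Ψ g (w⁻¹ * v) := by
  rw [ThH_gen, Pi.smul_apply, CG_w, smul_eq_mul]

theorem ThH_mul_u (h : H) (w : W) : ThH A (h * A.Φ.T.u w) = ThH A h := by
  induction h using ind A.Φ.T with
  | h1 f w' g =>
    have h1 : A.Φ.T.i f * A.Φ.T.u w' * A.Φ.T.j g * A.Φ.T.u w =
        A.Φ.T.i f * A.Φ.T.u (w' * w) * A.Φ.T.j (act (dualG (D.ρ w⁻¹)) g) := by
      rw [mul_assoc _ (A.Φ.T.j g), j_u, map_mul]
      simp only [mul_assoc]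
    rw [h1]
    funext v
    rw [ThH_app, ThH_app, CG_w]
    congr 2
    group
  | h2 a b ha hb => rw [add_mul, map_add, map_add, ha, hb]

theorem ThH_mul_eb (h : H) : ThH A (h * eb A.Φ.T) = (Fintype.card W : ℂ) • ThH A h := by
  unfold eb
  rw [Finset.mul_sum, map_sum, Finset.sum_congr rfl fun w _ => ThH_mul_u A h w, Finset.sum_const,
    Finset.card_univ, Nat.cast_smul_eq_nsmul]

theorem ThH_u_app (w : W) (f : MvPolynomial (Fin n) ℂ) (w' : W) (g : MvPolynomial (Fin n) ℂ)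
    (v : W) : ThH A (A.Φ.T.u w * (A.Φ.T.i f * A.Φ.T.u w' * A.Φ.T.j g)) v =
      A.CF.Ψ f w⁻¹ * A.CG.Ψ g (w'⁻¹ * (w⁻¹ * v)) := by
  have h1 : A.Φ.T.u w * (A.Φ.T.i f * A.Φ.T.u w' * A.Φ.T.j g) =
      A.Φ.T.i (act (D.ρ w) f) * A.Φ.T.u (w * w') * A.Φ.T.j g := by
    rw [← mul_assoc, ← mul_assoc, A.Φ.T.ui, map_mul]
    simp only [mul_assoc]
  rw [h1, ThH_app, lam_w, mul_inv_rev, mul_assoc]

theorem Fa_gen (a : Fin n) (f : MvPolynomial (Fin n) ℂ) (w : W) (g : MvPolynomial (Fin n) ℂ) :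
    (A.F a : H) * (A.Φ.T.i f * A.Φ.T.u w * A.Φ.T.j g) =
      A.Φ.T.i (A.CF.f a * f) * A.Φ.T.u w * A.Φ.T.j g := by
  rw [A.hF, map_mul]
  simp only [mul_assoc]

theorem zc (z : Zc H) (h : H) : (z : H) * h = h * z :=
  ((Subalgebra.mem_center_iff.mp z.2) h).symm

theorem Ga_gen (a : Fin n) (f : MvPolynomial (Fin n) ℂ) (w : W) (g : MvPolynomial (Fin n) ℂ) :
    (A.G a : H) * (A.Φ.T.i f * A.Φ.T.u w * A.Φ.T.j g) =
      A.Φ.T.i f * A.Φ.T.u w * A.Φ.T.j (g * A.CG.f a) := by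
  rw [zc, A.hG, map_mul]
  simp only [mul_assoc]

theorem ThH_F (a : Fin n) (h : H) : ThH A ((A.F a : H) * h) = 0 := by
  induction h using ind A.Φ.T with
  | h1 f w g =>
    rw [Fa_gen]
    funext v
    rw [ThH_app]
    have : lam A (A.CF.f a * f) = 0 := by
      unfold lam
      rw [LinearMap.comp_apply, LinearMap.proj_apply]
      rw [(A.CF.ker _).mpr (Ideal.mul_mem_right _ _ (Ideal.subset_span ⟨a, rfl⟩))]
      rfl
    rw [this, zero_mul]
    rfl
  | h2 a b ha hb => rw [mul_add, map_add, ha, hb, add_zero]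

theorem ThH_G (a : Fin n) (h : H) : ThH A ((A.G a : H) * h) = 0 := by
  induction h using ind A.Φ.T with
  | h1 f w g =>
    rw [Ga_gen]
    funext v
    rw [ThH_app]
    rw [(A.CG.ker _).mpr (Ideal.mul_mem_left _ _ (Ideal.subset_span ⟨a, rfl⟩))]
    rw [Pi.zero_apply, mul_zero]
    rfl
  | h2 a b ha hb => rw [mul_add, map_add, ha, hb, add_zero]

theorem ThH_σ (h : H) (v : W) : ThH A (A.Φ.σ h) v = ThH A h (D.θ.symm v) := by
  revert v
  induction h using ind A.Φ.T with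
  | h1 f w g =>
    intro v
    rw [map_mul A.Φ.σ, map_mul A.Φ.σ, A.Φ.σi, A.Φ.σu, A.Φ.σj, ThH_app, ThH_app, lam_t, CG_t,
      map_mul, map_inv, MulEquiv.symm_apply_apply]
  | h2 a b ha hb =>
    intro v
    rw [map_add, map_add, map_add, Pi.add_apply, Pi.add_apply, ha, hb]

open Classical in
/-- A preimage of the delta function at `v`. -/
noncomputable def fv (v : W) : MvPolynomial (Fin n) ℂ :=
  (A.CF.surj (Pi.single v 1)).choose

open Classical in
theorem fv_spec (v : W) : A.CF.Ψ (fv A v) = Pi.single v 1 := (A.CF.surj (Pi.single v 1)).choose_spec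

open Classical in
/-- A preimage of the delta function at `v`. -/
noncomputable def gv (v : W) : MvPolynomial (Fin n) ℂ :=
  (A.CG.surj (Pi.single v 1)).choose

open Classical in
theorem gv_spec (v : W) : A.CG.Ψ (gv A v) = Pi.single v 1 := (A.CG.surj (Pi.single v 1)).choose_spec

/-- The value on `e i(f₁) i f u w j g` -/
theorem ThH_sec (w : W) (g : MvPolynomial (Fin n) ℂ) (v : W) :
    ThH A (eb A.Φ.T * (A.Φ.T.i (fv A 1) * A.Φ.T.u w * A.Φ.T.j g)) v =
      A.CG.Ψ g (w⁻¹ * v) := by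
  classical
  unfold eb
  rw [Finset.sum_mul, map_sum, Finset.sum_apply, Finset.sum_eq_single 1]
  · rw [ThH_u_app, fv_spec, inv_one, Pi.single_eq_same, one_mul, one_mul]
  · intro w' _ hw'
    rw [ThH_u_app, fv_spec, Pi.single_eq_of_ne, zero_mul]
    simpa using hw'
  · intro h
    exact absurd (Finset.mem_univ _) h

/-- The left ideal generated by `j(𝔪^k)` is mapped to `X_k`. -/
theorem ThH_Xk (k : ℕ) (h : H) (g : MvPolynomial (Fin n) ℂ)
    (hg : g ∈ (Ideal.span (Set.range X) : Ideal (MvPolynomial (Fin n) ℂ)) ^ k) :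
    ThH A (h * A.Φ.T.j g) ∈ Xk A.CG.Ψ k := by
  induction h using ind A.Φ.T with
  | h1 f w g' =>
    have h1 : A.Φ.T.i f * A.Φ.T.u w * A.Φ.T.j g' * A.Φ.T.j g =
        A.Φ.T.i f * A.Φ.T.u w * A.Φ.T.j (g' * g) := by
      rw [map_mul]
      simp only [mul_assoc]
    rw [h1, ThH_gen]
    apply Submodule.smul_mem
    exact ⟨_, act_pow _ k _ (Ideal.mul_mem_left _ _ hg), rfl⟩
  | h2 a b ha hb =>
    rw [add_mul, map_add]
    exact Submodule.add_mem _ ha hb

/-- The left ideal generated by the `y_b`. -/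
abbrev JJ (Φ : Full D H) : Submodule H H := Submodule.span H (Set.range fun b => Φ.T.j (X b))

theorem ThH_J (k : ℕ) (r : H) (hr : r ∈ JJ A.Φ) (h : H) (g : MvPolynomial (Fin n) ℂ)
    (hg : g ∈ (Ideal.span (Set.range X) : Ideal (MvPolynomial (Fin n) ℂ)) ^ k) :
    ThH A (h * r * A.Φ.T.j g) ∈ Xk A.CG.Ψ (k + 1) := by
  revert h
  induction hr using Submodule.span_induction with
  | mem x hx =>
    obtain ⟨b, rfl⟩ := hx
    intro h
    have h1 : h * A.Φ.T.j (X b) * A.Φ.T.j g = h * A.Φ.T.j (X b * g) := by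
      rw [map_mul, mul_assoc]
    simp only
    rw [h1]
    apply ThH_Xk
    rw [pow_succ']
    exact Ideal.mul_mem_mul (Ideal.subset_span ⟨b, rfl⟩) hg
  | zero =>
    intro h
    rw [mul_zero, zero_mul, map_zero]
    exact Submodule.zero_mem _
  | add x y _ _ hx hy =>
    intro h
    rw [mul_add, add_mul, map_add]
    exact Submodule.add_mem _ (hx h) (hy h)
  | smul a x _ hx =>
    intro h
    rw [smul_eq_mul, ← mul_assoc]
    exact hx (h * a)

end

end Pool.Agent.V5helper46.CM
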