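import Pool.Agent.V5helper46.CM.TR3

/-!
# Project CM, job TRACE, part 4: the isomorphism `Sp/(F,G)Sp ≃ (W → ℂ)`
-/

namespace Pool.Agent.V5helper46.CM

open Pool.Agent.V5helper32.CM MvPolynomial
open scoped TensorProduct

section

variable {n : ℕ} {W : Type} [Group W] [Fintype W] {D : Rd n W} {H : Type} [Ring H] [Algebra ℂ H]
  {Λ : Type} [Ring Λ] [Algebra ℂ Λ] {Sp : Type} [AddCommGroup Sp] [Module ℂ Sp]
  [Module Λ Sp] [IsScalarTower ℂ Λ Sp] (A : Su D H Λ Sp)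

/-- The span of `F_a h e` and `G_a h e`. -/
def QQ : Submodule ℂ H := Submodule.span ℂ
  ({x | ∃ a h, x = (A.F a : H) * h * eb A.Φ.T} ∪ {x | ∃ a h, x = (A.G a : H) * h * eb A.Φ.T})

theorem QF (r : MvPolynomial (Fin n) ℂ) (hr : r ∈ Ideal.span (Set.range A.CF.f)) (h : H) :
    A.Φ.T.i r * h * eb A.Φ.T ∈ QQ A := by
  revert h
  induction hr using Submodule.span_induction with
  | mem x hx =>
    obtain ⟨a, rfl⟩ := hx
    intro h
    rw [← A.hF]
    exact Submodule.subset_span (Or.inl ⟨a, h, rfl⟩)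
  | zero =>
    intro h
    rw [map_zero, zero_mul, zero_mul]
    exact Submodule.zero_mem _
  | add x y _ _ hx hy =>
    intro h
    rw [map_add, add_mul, add_mul]
    exact Submodule.add_mem _ (hx h) (hy h)
  | smul a x _ hx =>
    intro h
    rw [smul_eq_mul, mul_comm, map_mul, mul_assoc (A.Φ.T.i x)]
    exact hx _

theorem QG (r : MvPolynomial (Fin n) ℂ) (hr : r ∈ Ideal.span (Set.range A.CG.f)) (h : H) :
    h * A.Φ.T.j r * eb A.Φ.T ∈ QQ A := by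
  revert h
  induction hr using Submodule.span_induction with
  | mem x hx =>
    obtain ⟨a, rfl⟩ := hx
    intro h
    rw [← A.hG, ← zc]
    exact Submodule.subset_span (Or.inr ⟨a, h, rfl⟩)
  | zero =>
    intro h
    rw [map_zero, mul_zero, zero_mul]
    exact Submodule.zero_mem _
  | add x y _ _ hx hy =>
    intro h
    rw [map_add, mul_add, add_mul]
    exact Submodule.add_mem _ (hx h) (hy h)
  | smul a x _ hx =>
    intro h
    rw [smul_eq_mul, map_mul, ← mul_assoc h]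
    exact hx _

theorem sub_F (f : MvPolynomial (Fin n) ℂ) :
    f - ∑ v, A.CF.Ψ f v • fv A v ∈ Ideal.span (Set.range A.CF.f) := by
  classical
  rw [← A.CF.ker, map_sub, map_sum, sub_eq_zero]
  funext w
  rw [Finset.sum_apply, Finset.sum_eq_single w]
  · rw [map_smul, fv_spec, Pi.smul_apply, Pi.single_eq_same, smul_eq_mul, mul_one]
  · intro v _ hv
    rw [map_smul, fv_spec, Pi.smul_apply, Pi.single_eq_of_ne hv.symm, smul_zero]
  · intro h
    exact absurd (Finset.mem_univ _) h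

theorem sub_G (f : MvPolynomial (Fin n) ℂ) :
    f - ∑ v, A.CG.Ψ f v • gv A v ∈ Ideal.span (Set.range A.CG.f) := by
  classical
  rw [← A.CG.ker, map_sub, map_sum, sub_eq_zero]
  funext w
  rw [Finset.sum_apply, Finset.sum_eq_single w]
  · rw [map_smul, gv_spec, Pi.smul_apply, Pi.single_eq_same, smul_eq_mul, mul_one]
  · intro v _ hv
    rw [map_smul, gv_spec, Pi.smul_apply, Pi.single_eq_of_ne hv.symm, smul_zero]
  · intro h
    exact absurd (Finset.mem_univ _) h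

theorem kerH (h : H) : h * eb A.Φ.T -
    ∑ v, ∑ v', ThH A (A.Φ.T.u v⁻¹ * h) (v⁻¹ * v') •
      (A.Φ.T.i (fv A v) * A.Φ.T.j (gv A v') * eb A.Φ.T) ∈ QQ A := by
  induction h using ind A.Φ.T with
  | h1 f w g =>
    set g0 := act (dualG (D.ρ w)) g with hg0
    have e1 : A.Φ.T.i f * A.Φ.T.u w * A.Φ.T.j g * eb A.Φ.T =
        A.Φ.T.i f * A.Φ.T.j g0 * eb A.Φ.T := by
      rw [mul_assoc (A.Φ.T.i f), A.Φ.T.uj, ← mul_assoc, mul_assoc _ (A.Φ.T.u w), u_eb]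
    set f' := ∑ v, A.CF.Ψ f v • fv A v with hf'
    set g' := ∑ v, A.CG.Ψ g0 v • gv A v with hg'
    have e2 : ∑ v, ∑ v', ThH A (A.Φ.T.u v⁻¹ * (A.Φ.T.i f * A.Φ.T.u w * A.Φ.T.j g)) (v⁻¹ * v') •
        (A.Φ.T.i (fv A v) * A.Φ.T.j (gv A v') * eb A.Φ.T) =
        A.Φ.T.i f' * A.Φ.T.j g' * eb A.Φ.T := by
      rw [hf', hg', map_sum, map_sum, Finset.sum_mul_sum, Finset.sum_mul]
      apply Finset.sum_congr rfl
      intro v _
      rw [Finset.sum_mul]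
      apply Finset.sum_congr rfl
      intro v' _
      rw [ThH_u_app, inv_inv, hg0, CG_w, map_smul, map_smul, smul_mul_smul_comm,
        smul_mul_assoc, mul_inv_cancel_left]
    rw [e1, e2]
    have e3 : A.Φ.T.i f * A.Φ.T.j g0 * eb A.Φ.T - A.Φ.T.i f' * A.Φ.T.j g' * eb A.Φ.T =
        A.Φ.T.i (f - f') * A.Φ.T.j g0 * eb A.Φ.T +
          A.Φ.T.i f' * A.Φ.T.j (g0 - g') * eb A.Φ.T := by
      rw [map_sub, map_sub]
      noncomm_ring
    rw [e3]
    exact Submodule.add_mem _ (QF A _ (sub_F A f) _) (QG A _ (sub_G A g0) _)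
  | h2 a b ha hb =>
    have := Submodule.add_mem _ ha hb
    convert this using 1
    simp only [mul_add, add_mul, map_add, Pi.add_apply, add_smul, Finset.sum_add_distrib]
    abel

/-- The submodule by which we divide. -/
abbrev NN : Submodule Λ Sp := Submodule.span Λ {v : Sp | ∃ (i : Fin n) (m : Sp),
  v = A.s.ι (A.F i) • m ∨ v = A.s.ι (A.G i) • m}

theorem card_ne : (Fintype.card W : ℂ) ≠ 0 := by
  rw [Nat.cast_ne_zero]
  exact Fintype.card_ne_zero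

theorem ψ_l (m : Sp) : eb A.Φ.T * A.ψ m = (Fintype.card W : ℂ) • A.ψ m :=
  ((A.ψran (A.ψ m)).mp ⟨m, rfl⟩).1

theorem ψ_r (m : Sp) : A.ψ m * eb A.Φ.T = (Fintype.card W : ℂ) • A.ψ m :=
  ((A.ψran (A.ψ m)).mp ⟨m, rfl⟩).2

theorem u_ψ (m : Sp) (w : W) : A.Φ.T.u w * A.ψ m = A.ψ m := by
  have h1 : (Fintype.card W : ℂ) • (A.Φ.T.u w * A.ψ m) = (Fintype.card W : ℂ) • A.ψ m := by
    rw [← mul_smul_comm, ← ψ_l, ← mul_assoc, u_eb]
  exact smul_right_injective _ card_ne h1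

theorem ebeb_ran (h : H) : ∃ m : Sp, A.ψ m = eb A.Φ.T * h * eb A.Φ.T := by
  rw [A.ψran]
  constructor
  · change eb A.Φ.T * _ = _
    rw [← mul_assoc, ← mul_assoc, eb_eb, smul_mul_assoc, smul_mul_assoc]
  · change _ * eb A.Φ.T = _
    rw [mul_assoc _ (eb A.Φ.T) (eb A.Φ.T), eb_eb, mul_smul_comm]

theorem QQ_NN (q : H) (hq : q ∈ QQ A) : ∃ m' ∈ NN A, A.ψ m' = eb A.Φ.T * q := by
  induction hq using Submodule.span_induction with
  | mem x hx =>
    rcases hx with ⟨a, h, rfl⟩ | ⟨a, h, rfl⟩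
    · obtain ⟨m, hm⟩ := ebeb_ran A h
      refine ⟨A.s.ι (A.F a) • m, Submodule.subset_span ⟨a, m, Or.inl rfl⟩, ?_⟩
      rw [A.ψz, hm, ← mul_assoc, ← mul_assoc, ← mul_assoc, ← mul_assoc, zc]
    · obtain ⟨m, hm⟩ := ebeb_ran A h
      refine ⟨A.s.ι (A.G a) • m, Submodule.subset_span ⟨a, m, Or.inr rfl⟩, ?_⟩
      rw [A.ψz, hm, ← mul_assoc, ← mul_assoc, ← mul_assoc, ← mul_assoc, zc]
  | zero => exact ⟨0, Submodule.zero_mem _, by rw [map_zero, mul_zero]⟩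
  | add x y _ _ hx hy =>
    obtain ⟨a, ha, ha'⟩ := hx
    obtain ⟨b, hb, hb'⟩ := hy
    exact ⟨a + b, Submodule.add_mem _ ha hb, by rw [map_add, mul_add, ha', hb']⟩
  | smul c x _ hx =>
    obtain ⟨a, ha, ha'⟩ := hx
    exact ⟨c • a, Submodule.smul_of_tower_mem _ c ha, by rw [map_smul, ha', mul_smul_comm]⟩

theorem mem_NN (m : Sp) (hm : ThH A (A.ψ m) = 0) : m ∈ NN A := by
  have h1 := kerH A (A.ψ m)
  have h2 : ∑ v, ∑ v', ThH A (A.Φ.T.u v⁻¹ * A.ψ m) (v⁻¹ * v') •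
      (A.Φ.T.i (fv A v) * A.Φ.T.j (gv A v') * eb A.Φ.T) = 0 := by
    apply Finset.sum_eq_zero
    intro v _
    apply Finset.sum_eq_zero
    intro v' _
    rw [u_ψ, hm, Pi.zero_apply, zero_smul]
  rw [h2, sub_zero, ψ_r] at h1
  obtain ⟨m', hm', h3⟩ := QQ_NN A _ h1
  rw [mul_smul_comm, ψ_l, ← map_smul, ← map_smul] at h3
  have h4 : m = (Fintype.card W : ℂ)⁻¹ • (Fintype.card W : ℂ)⁻¹ • m' := by
    rw [A.ψinj h3, inv_smul_smul₀ card_ne, inv_smul_smul₀ card_ne]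
  rw [h4]
  exact Submodule.smul_of_tower_mem _ _ (Submodule.smul_of_tower_mem _ _ hm')

theorem σF (a : Fin n) : A.σ (A.F a) = A.CF.ζ a • A.F a := by
  apply Subtype.ext
  rw [A.hσ, A.hF, A.Φ.σi, A.CF.eig, map_smul]
  change _ = A.CF.ζ a • (A.F a : H)
  rw [A.hF]

theorem σG (a : Fin n) : A.σ (A.G a) = A.CG.ζ a • A.G a := by
  apply Subtype.ext
  rw [A.hσ, A.hG, A.Φ.σj]
  have := A.CG.eig a
  rw [A.ht] at this
  rw [this, map_smul]
  change _ = A.CG.ζ a • (A.G a : H)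
  rw [A.hG]

theorem tz (z : Zc H) (ζ : ℂ) (hz : A.σ z = ζ • z) (k : ℕ) (m : Sp) :
    ∃ m', A.s.t ^ k • A.s.ι z • m = A.s.ι z • m' := by
  induction k with
  | zero => exact ⟨m, by rw [pow_zero, one_smul]⟩
  | succ k ih =>
    obtain ⟨m', hm'⟩ := ih
    refine ⟨ζ • A.s.t • m', ?_⟩
    rw [pow_succ', mul_smul, hm', smul_smul, A.s.comm, hz, map_smul, smul_mul_assoc,
      smul_assoc, mul_smul, ← smul_comm]

theorem Th_l (z : Zc H) (ζ : ℂ) (hz : A.σ z = ζ • z) (hT : ∀ h : H, ThH A ((z : H) * h) = 0)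
    (l : Λ) (m : Sp) : ThH A (A.ψ (l • A.s.ι z • m)) = 0 := by
  obtain ⟨c, rfl⟩ := A.s.gen l
  rw [Finset.sum_smul, map_sum, map_sum]
  apply Finset.sum_eq_zero
  intro k _
  obtain ⟨m', hm'⟩ := tz A z ζ hz k m
  rw [mul_smul, hm', smul_smul, ← map_mul, mul_comm, map_mul, mul_smul, A.ψz, hT]

theorem NN_ker (m : Sp) (hm : m ∈ NN A) : ThH A (A.ψ m) = 0 := by
  have h1 : ∀ l : Λ, ThH A (A.ψ (l • m)) = 0 := by
    induction hm using Submodule.span_induction with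
    | mem x hx =>
      obtain ⟨a, m, rfl | rfl⟩ := hx
      · intro l
        exact Th_l A _ _ (σF A a) (ThH_F A a) l m
      · intro l
        exact Th_l A _ _ (σG A a) (ThH_G A a) l m
    | zero => intro l; rw [smul_zero, map_zero, map_zero]
    | add x y _ _ hx hy => intro l; rw [smul_add, map_add, map_add, hx, hy, add_zero]
    | smul a x _ hx => intro l; rw [smul_smul]; exact hx _
  have := h1 1
  rwa [one_smul] at this

/-- The induced map. -/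
noncomputable def ThV0 : (Sp ⧸ NN A) →ₗ[ℂ] (W → ℂ) :=
  (Submodule.liftQ ((NN A).restrictScalars ℂ) (ThH A ∘ₗ A.ψ) (fun m hm => NN_ker A m hm)) ∘ₗ
    (Submodule.Quotient.restrictScalarsEquiv ℂ (NN A)).symm.toLinearMap

theorem ThV0_mk (m : Sp) : ThV0 A (Submodule.Quotient.mk m) = ThH A (A.ψ m) := rfl

theorem sec_ex (g : MvPolynomial (Fin n) ℂ) : ∃ m : Sp, A.ψ m = (Fintype.card W : ℂ)⁻¹ •
    (eb A.Φ.T * (A.Φ.T.i (fv A 1) * A.Φ.T.j g) * eb A.Φ.T) := by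
  obtain ⟨m, hm⟩ := ebeb_ran A (A.Φ.T.i (fv A 1) * A.Φ.T.j g)
  exact ⟨(Fintype.card W : ℂ)⁻¹ • m, by rw [map_smul, hm]⟩

theorem ThH_sec' (g : MvPolynomial (Fin n) ℂ) : ThH A ((Fintype.card W : ℂ)⁻¹ •
    (eb A.Φ.T * (A.Φ.T.i (fv A 1) * A.Φ.T.j g) * eb A.Φ.T)) = A.CG.Ψ g := by
  rw [map_smul, ThH_mul_eb, inv_smul_smul₀ card_ne]
  funext v
  have h1 : A.Φ.T.i (fv A 1) * A.Φ.T.j g = A.Φ.T.i (fv A 1) * A.Φ.T.u 1 * A.Φ.T.j g := by
    rw [map_one, mul_one]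
  rw [h1, ThH_sec, inv_one, one_mul]

/-- The isomorphism. -/
noncomputable def ThV : (Sp ⧸ NN A) ≃ₗ[ℂ] (W → ℂ) := LinearEquiv.ofBijective (ThV0 A) (by
  constructor
  · rw [injective_iff_map_eq_zero]
    intro a ha
    obtain ⟨m, rfl⟩ := Submodule.Quotient.mk_surjective _ a
    rw [ThV0_mk] at ha
    exact (Submodule.Quotient.mk_eq_zero _).mpr (mem_NN A m ha)
  · intro x
    obtain ⟨g, rfl⟩ := A.CG.surj x
    obtain ⟨m, hm⟩ := sec_ex A g
    exact ⟨Submodule.Quotient.mk m, by rw [ThV0_mk, hm, ThH_sec']⟩)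

theorem ThV_mk (m : Sp) : ThV A (Submodule.Quotient.mk m) = ThH A (A.ψ m) := rfl

end

end Pool.Agent.V5helper46.CM
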