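import Pool.Agent.V5helper46.CM.TR4

/-!
# Project CM, job TRACE, part 5: the action of the centre in terms of the filtration
-/

namespace Pool.Agent.V5helper46.CM

open Pool.Agent.V5helper32.CM MvPolynomial
open scoped TensorProduct

section

variable {n : ℕ} {W : Type} [Group W] [Fintype W] {D : Rd n W} {H : Type} [Ring H] [Algebra ℂ H]
  {Λ : Type} [Ring Λ] [Algebra ℂ Λ] {Sp : Type} [AddCommGroup Sp] [Module ℂ Sp]
  [Module Λ Sp] [IsScalarTower ℂ Λ Sp] (A : Su D H Λ Sp)

/-- The left regular representation on functions. -/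
noncomputable def Rg : W →* Module.End ℂ (W → ℂ) where
  toFun w := LinearMap.funLeft ℂ ℂ (fun v => w⁻¹ * v)
  map_one' := by
    ext φ v
    simp [LinearMap.funLeft_apply]
  map_mul' a b := by
    apply LinearMap.ext
    intro φ
    funext v
    rw [Module.End.mul_apply, LinearMap.funLeft_apply, LinearMap.funLeft_apply,
      LinearMap.funLeft_apply, mul_inv_rev, mul_assoc]

theorem Rg_app (w : W) (φ : W → ℂ) (v : W) : Rg w φ v = φ (w⁻¹ * v) := rfl

/-- The action of the group algebra on functions. -/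
noncomputable def aX (a : MonoidAlgebra ℂ W) : Module.End ℂ (W → ℂ) :=
  MonoidAlgebra.lift ℂ (Module.End ℂ (W → ℂ)) W Rg a

/-- The twist. -/
noncomputable def θX (D : Rd n W) : Module.End ℂ (W → ℂ) := LinearMap.funLeft ℂ ℂ D.θ.symm

theorem θX_app (φ : W → ℂ) (v : W) : θX D φ v = φ (D.θ.symm v) := rfl

theorem ThH_secA (a : MonoidAlgebra ℂ W) (g : MvPolynomial (Fin n) ℂ) :
    ThH A (eb A.Φ.T * (A.Φ.T.i (fv A 1) * MonoidAlgebra.lift ℂ H W A.Φ.T.u a * A.Φ.T.j g)) =
      aX a (A.CG.Ψ g) := by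
  unfold aX
  induction a using MonoidAlgebra.induction_linear with
  | zero => rw [map_zero, mul_zero, zero_mul, mul_zero, map_zero, map_zero, LinearMap.zero_apply]
  | add a b ha hb =>
    rw [map_add, mul_add, add_mul, mul_add, map_add, ha, hb, map_add, LinearMap.add_apply]
  | single w c =>
    rw [MonoidAlgebra.lift_single, MonoidAlgebra.lift_single, mul_smul_comm, smul_mul_assoc,
      mul_smul_comm, map_smul, LinearMap.smul_apply]
    congr 1
    funext v
    rw [ThH_sec]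
    rfl

/-- Congruence of a central element and an element of the group algebra. -/
def Cong (Φ : Full D H) (z : Zc H) (a : MonoidAlgebra ℂ W) : Prop :=
  (z : H) - MonoidAlgebra.lift ℂ H W Φ.T.u a ∈ JJ Φ

theorem FIL (z : Zc H) (a : MonoidAlgebra ℂ W) (hza : Cong A.Φ z a) (k : ℕ) (x : Sp ⧸ NN A)
    (hx : ThV A x ∈ Xk A.CG.Ψ k) :
    ThV A (A.s.ι z • x) - aX a (ThV A x) ∈ Xk A.CG.Ψ (k + 1) := by
  obtain ⟨g, hg, hgx⟩ := hx
  obtain ⟨m, hm⟩ := sec_ex A g
  have h1 : x = Submodule.Quotient.mk m := by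
    apply (ThV A).injective
    rw [ThV_mk, hm, ThH_sec', hgx]
  rw [← hgx, h1]
  have h2 : A.s.ι z • (Submodule.Quotient.mk m : Sp ⧸ NN A) =
      Submodule.Quotient.mk (A.s.ι z • m) := rfl
  rw [h2, ThV_mk, A.ψz, hm]
  set r : H := (z : H) - MonoidAlgebra.lift ℂ H W A.Φ.T.u a with hr
  have hz : (z : H) = MonoidAlgebra.lift ℂ H W A.Φ.T.u a + r := by rw [hr]; abel
  have h3 : (z : H) * ((Fintype.card W : ℂ)⁻¹ •
      (eb A.Φ.T * (A.Φ.T.i (fv A 1) * A.Φ.T.j g) * eb A.Φ.T)) =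
      (Fintype.card W : ℂ)⁻¹ •
        ((eb A.Φ.T * (A.Φ.T.i (fv A 1) * MonoidAlgebra.lift ℂ H W A.Φ.T.u a * A.Φ.T.j g) +
          (eb A.Φ.T * A.Φ.T.i (fv A 1)) * r * A.Φ.T.j g) * eb A.Φ.T) := by
    rw [mul_smul_comm]
    congr 1
    rw [← mul_assoc]
    congr 1
    have h4 : (z : H) * (eb A.Φ.T * (A.Φ.T.i (fv A 1) * A.Φ.T.j g)) =
        (eb A.Φ.T * A.Φ.T.i (fv A 1)) * (z : H) * A.Φ.T.j g := by
      rw [← zc z]
      simp only [mul_assoc]
    rw [h4, hz]
    noncomm_ring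
  rw [h3, map_smul, ThH_mul_eb, inv_smul_smul₀ card_ne, map_add, ThH_secA]
  rw [add_sub_cancel_left]
  exact ThH_J A k r hza _ g hg

theorem Xk_zero : Xk A.CG.Ψ 0 = ⊤ := by
  rw [eq_top_iff]
  intro x _
  obtain ⟨g, rfl⟩ := A.CG.surj x
  refine ⟨g, ?_, rfl⟩
  rw [pow_zero, Ideal.one_eq_top]
  trivial

theorem Xk_ex : ∃ K, Xk A.CG.Ψ K = ⊥ :=
  Xk_bot A.CG.f A.CG.d A.CG.hom A.CG.Ψ A.CG.ker

theorem NIL (z : Zc H) (hz : Cong A.Φ z 0) : ∃ K, ∀ x : Sp ⧸ NN A, A.s.ι z ^ K • x = 0 := by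
  obtain ⟨K, hK⟩ := Xk_ex A
  refine ⟨K, fun x => ?_⟩
  have h1 : ∀ k, ThV A (A.s.ι z ^ k • x) ∈ Xk A.CG.Ψ k := by
    intro k
    induction k with
    | zero => rw [Xk_zero]; trivial
    | succ k ih =>
      have := FIL A z 0 hz k _ ih
      rw [aX, map_zero, LinearMap.zero_apply, sub_zero, smul_smul, ← pow_succ'] at this
      exact this
  have h2 := h1 K
  rw [hK, Submodule.mem_bot] at h2
  exact (LinearEquiv.map_eq_zero_iff _).mp h2

theorem ThV_t (x : Sp ⧸ NN A) : ThV A (A.s.t • x) = θX D (ThV A x) := by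
  obtain ⟨m, rfl⟩ := Submodule.Quotient.mk_surjective _ x
  have h2 : A.s.t • (Submodule.Quotient.mk m : Sp ⧸ NN A) =
      Submodule.Quotient.mk (A.s.t • m) := rfl
  rw [h2, ThV_mk, ThV_mk, A.ψt]
  funext v
  rw [ThH_σ, θX_app]

theorem θX_Xk (k : ℕ) (x : W → ℂ) (hx : x ∈ Xk A.CG.Ψ k) : θX D x ∈ Xk A.CG.Ψ k := by
  obtain ⟨g, hg, rfl⟩ := hx
  refine ⟨act (dualG D.t) g, act_pow _ k _ hg, ?_⟩
  funext v
  rw [CG_t, θX_app]

theorem TRA (z : Zc H) (a : MonoidAlgebra ℂ W) (hza : Cong A.Φ z a) :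
    LinearMap.trace ℂ (Sp ⧸ NN A) (Algebra.lsmul ℂ ℂ (Sp ⧸ NN A) A.s.t *
      Algebra.lsmul ℂ ℂ (Sp ⧸ NN A) (A.s.ι z)) = LinearMap.trace ℂ (W → ℂ) (θX D * aX a) := by
  set f : Module.End ℂ (Sp ⧸ NN A) := Algebra.lsmul ℂ ℂ (Sp ⧸ NN A) A.s.t *
      Algebra.lsmul ℂ ℂ (Sp ⧸ NN A) (A.s.ι z) with hf
  rw [← LinearMap.trace_conj' f (ThV A)]
  set N : Module.End ℂ (W → ℂ) := (ThV A).conj f - θX D * aX a with hN
  have h1 : ∀ k, ∀ x ∈ Xk A.CG.Ψ k, N x ∈ Xk A.CG.Ψ (k + 1) := by
    intro k x hx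
    have h2 : N x = θX D (ThV A (A.s.ι z • (ThV A).symm x) - aX a x) := by
      rw [hN, LinearMap.sub_apply, LinearEquiv.conj_apply_apply, map_sub, hf]
      have h3 : (Algebra.lsmul ℂ ℂ (Sp ⧸ NN A) A.s.t *
        Algebra.lsmul ℂ ℂ (Sp ⧸ NN A) (A.s.ι z)) ((ThV A).symm x) =
        A.s.t • A.s.ι z • (ThV A).symm x := rfl
      rw [h3, ThV_t]
      rfl
    rw [h2]
    apply θX_Xk
    have h4 := FIL A z a hza k ((ThV A).symm x) (by rwa [LinearEquiv.apply_symm_apply])
    rwa [LinearEquiv.apply_symm_apply] at h4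
  obtain ⟨K, hK⟩ := Xk_ex A
  have h5 : ∀ k x, (N ^ k) x ∈ Xk A.CG.Ψ k := by
    intro k
    induction k with
    | zero => intro x; rw [Xk_zero]; trivial
    | succ k ih =>
      intro x
      rw [pow_succ', Module.End.mul_apply]
      exact h1 k _ (ih x)
  have h6 : IsNilpotent N := by
    refine ⟨K, ?_⟩
    apply LinearMap.ext
    intro x
    have := h5 K x
    rw [hK, Submodule.mem_bot] at this
    rw [this]
    rfl
  have h7 : LinearMap.trace ℂ (W → ℂ) N = 0 :=
    (LinearMap.isNilpotent_trace_of_isNilpotent h6).eq_zero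
  rw [hN, map_sub, sub_eq_zero] at h7
  exact h7

/-- The group algebra and functions. -/
noncomputable def eW : MonoidAlgebra ℂ W ≃ₗ[ℂ] (W → ℂ) where
  toFun b := fun v => b.coeff v
  map_add' a b := by
    funext v
    rfl
  map_smul' c b := by
    funext v
    rfl
  invFun φ := .ofCoeff (Finsupp.equivFunOnFinite.symm φ)
  left_inv b := by
    ext v
    rfl
  right_inv φ := by
    funext v
    rfl

theorem eW_mul (a b : MonoidAlgebra ℂ W) : eW (a * b) = aX a (eW b) := by
  classical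
  unfold aX
  induction a using MonoidAlgebra.induction_linear with
  | zero => rw [map_zero, zero_mul, map_zero, LinearMap.zero_apply]
  | add a a' ha hb => rw [map_add, add_mul, map_add, ha, hb, LinearMap.add_apply]
  | single w c =>
    rw [MonoidAlgebra.lift_single]
    induction b using MonoidAlgebra.induction_linear with
    | zero => rw [map_zero, mul_zero, map_zero, map_zero]
    | add a b ha hb => rw [mul_add, map_add, map_add, map_add, ha, hb]
    | single w' c' =>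
      rw [MonoidAlgebra.single_mul_single]
      funext v
      rw [LinearMap.smul_apply, Pi.smul_apply, Rg_app]
      change (MonoidAlgebra.single (w * w') (c * c')).coeff v =
        c • (MonoidAlgebra.single w' c').coeff (w⁻¹ * v)
      rw [MonoidAlgebra.coeff_single, MonoidAlgebra.coeff_single, Finsupp.single_apply,
        Finsupp.single_apply, smul_eq_mul]
      by_cases h : w * w' = v
      · rw [if_pos h, if_pos (by rw [← h]; group)]
      · rw [if_neg h, if_neg (by rintro rfl; apply h; group), mul_zero]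

theorem eW_θ (b : MonoidAlgebra ℂ W) : eW (MonoidAlgebra.mapDomain D.θ b) = θX D (eW b) := by
  classical
  induction b using MonoidAlgebra.induction_linear with
  | zero => rw [MonoidAlgebra.mapDomain_zero, map_zero, map_zero]
  | add a b ha hb => rw [MonoidAlgebra.mapDomain_add, map_add, map_add, map_add, ha, hb]
  | single w c =>
    rw [MonoidAlgebra.mapDomain_single]
    funext v
    rw [θX_app]
    change (MonoidAlgebra.single (D.θ w) c).coeff v =
      (MonoidAlgebra.single w c).coeff (D.θ.symm v)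
    rw [MonoidAlgebra.coeff_single, MonoidAlgebra.coeff_single, Finsupp.single_apply,
        Finsupp.single_apply]
    by_cases h : D.θ w = v
    · rw [if_pos h, if_pos (by rw [← h, MulEquiv.symm_apply_apply])]
    · rw [if_neg h, if_neg (by rintro rfl; apply h; rw [MulEquiv.apply_symm_apply])]

end

end Pool.Agent.V5helper46.CM
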