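import Pool.Agent.V5helper32.CM.Stm2

/-!
# Project CM, job TRACE, part 6: semisimplicity, Schur, nilpotency
-/

namespace Pool.Agent.V5helper46.CM

open Pool.Agent.V5helper32.CM

section

variable {W : Type} [Group W] [Fintype W]

/-- A simple left ideal as an irreducible representation is killed by an element which acts by
zero on all irreducible representations of a complete system. -/
theorem faith (S : IrrSys W) (a : MonoidAlgebra ℂ W)
    (ha : ∀ i, (S.ρ i).asAlgebraHom a = 0) : a = 0 := by
  have key : ∀ N : Submodule (MonoidAlgebra ℂ W) (MonoidAlgebra ℂ W),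
      IsSimpleModule (MonoidAlgebra ℂ W) N → ∀ x ∈ N, a * x = 0 := by
    intro N hN x hx
    -- the representation on `N`
    let ρ' : Representation ℂ W (N.restrictScalars ℂ) :=
      { toFun := fun w =>
          { toFun := fun y => ⟨MonoidAlgebra.single w 1 * (y : MonoidAlgebra ℂ W),
              N.smul_mem (MonoidAlgebra.single w 1) y.2⟩
            map_add' := fun y y' => Subtype.ext (mul_add _ _ _)
            map_smul' := fun c y => Subtype.ext (mul_smul_comm _ _ _) }
        map_one' := by
          apply LinearMap.ext
          intro y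
          apply Subtype.ext
          change (MonoidAlgebra.single (1 : W) (1 : ℂ)) * (y : MonoidAlgebra ℂ W) = y
          rw [← MonoidAlgebra.one_def, one_mul]
        map_mul' := by
          intro w w'
          apply LinearMap.ext
          intro y
          apply Subtype.ext
          change MonoidAlgebra.single (w * w') (1 : ℂ) * (y : MonoidAlgebra ℂ W) =
            MonoidAlgebra.single w (1 : ℂ) *
              (MonoidAlgebra.single w' (1 : ℂ) * (y : MonoidAlgebra ℂ W))
          rw [← mul_assoc, MonoidAlgebra.single_mul_single, one_mul] }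
    have hρ' : ∀ (b : MonoidAlgebra ℂ W) (y : N.restrictScalars ℂ),
        ((ρ'.asAlgebraHom b y : N.restrictScalars ℂ) : MonoidAlgebra ℂ W) = b * y := by
      intro b y
      rw [Representation.asAlgebraHom_def]
      induction b using MonoidAlgebra.induction_linear with
      | zero => rw [map_zero, zero_mul]; rfl
      | add b b' hb hb' =>
        rw [map_add, add_mul, ← hb, ← hb']
        rfl
      | single w c =>
        rw [MonoidAlgebra.lift_single]
        change c • (MonoidAlgebra.single w 1 * (y : MonoidAlgebra ℂ W)) = _
        rw [← smul_mul_assoc, MonoidAlgebra.smul_single, smul_eq_mul, mul_one]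
    have hnt : Nontrivial (N.restrictScalars ℂ) := by
      have := hN.nontrivial
      exact this
    obtain ⟨i, e, he⟩ := S.surj (N.restrictScalars ℂ) ρ' hnt (by
      intro U hU
      -- the corresponding submodule over the group algebra
      have hU' : ∀ (b : MonoidAlgebra ℂ W), ∀ y ∈ U, ρ'.asAlgebraHom b y ∈ U := by
        intro b y hy
        rw [Representation.asAlgebraHom_def]
        induction b using MonoidAlgebra.induction_linear with
        | zero => rw [map_zero]; exact U.zero_mem
        | add b b' hb hb' => rw [map_add]; exact U.add_mem hb hb'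
        | single w c =>
          rw [MonoidAlgebra.lift_single]
          exact U.smul_mem _ (hU w y hy)
      let U' : Submodule (MonoidAlgebra ℂ W) N :=
        { carrier := {y | (⟨y.1, y.2⟩ : N.restrictScalars ℂ) ∈ U}
          add_mem' := fun {y y'} hy hy' => U.add_mem hy hy'
          zero_mem' := U.zero_mem
          smul_mem' := fun b y hy => by
            have h1 := hU' b _ hy
            have h2 : ρ'.asAlgebraHom b (⟨y.1, y.2⟩ : N.restrictScalars ℂ) =
                (⟨(b • y).1, (b • y).2⟩ : N.restrictScalars ℂ) := by
              apply Subtype.ext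
              rw [hρ']
              rfl
            exact (congrArg (· ∈ U) h2).mp h1 }
      rcases eq_bot_or_eq_top U' with h | h
      · left
        rw [eq_bot_iff]
        intro y hy
        have h1 : (⟨y.1, y.2⟩ : N) ∈ U' := hy
        rw [h, Submodule.mem_bot] at h1
        rw [Submodule.mem_bot]
        apply Subtype.ext
        exact congrArg Subtype.val h1
      · right
        rw [eq_top_iff]
        intro y _
        have h1 : (⟨y.1, y.2⟩ : N) ∈ U' := by rw [h]; trivial
        exact h1)
    have he' : ∀ (b : MonoidAlgebra ℂ W) y, e ((S.ρ i).asAlgebraHom b y) =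
        ρ'.asAlgebraHom b (e y) := by
      intro b y
      rw [Representation.asAlgebraHom_def, Representation.asAlgebraHom_def]
      induction b using MonoidAlgebra.induction_linear with
      | zero => rw [map_zero, map_zero, LinearMap.zero_apply, LinearMap.zero_apply, map_zero]
      | add b b' hb hb' =>
        rw [map_add, map_add, LinearMap.add_apply, LinearMap.add_apply, map_add, hb, hb']
      | single w c =>
        rw [MonoidAlgebra.lift_single, MonoidAlgebra.lift_single, LinearMap.smul_apply,
          LinearMap.smul_apply, map_smul, he]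
    have h1 := he' a (e.symm ⟨x, hx⟩)
    rw [ha i, LinearMap.zero_apply, map_zero, LinearEquiv.apply_symm_apply] at h1
    have h2 := hρ' a ⟨x, hx⟩
    rw [← h1] at h2
    exact h2.symm
  have h1 : (1 : MonoidAlgebra ℂ W) ∈ sSup {m : Submodule (MonoidAlgebra ℂ W)
      (MonoidAlgebra ℂ W) | IsSimpleModule (MonoidAlgebra ℂ W) m} := by
    rw [IsSemisimpleModule.sSup_simples_eq_top]
    trivial
  rw [sSup_eq_iSup'] at h1
  have h2 : ∀ x ∈ ⨆ (N : {m : Submodule (MonoidAlgebra ℂ W)
      (MonoidAlgebra ℂ W) | IsSimpleModule (MonoidAlgebra ℂ W) m}),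
      (N : Submodule (MonoidAlgebra ℂ W) (MonoidAlgebra ℂ W)), a * x = 0 := by
    intro x hx
    induction hx using Submodule.iSup_induction' with
    | mem N x hx => exact key N.1 N.2 x hx
    | zero => exact mul_zero a
    | add x y _ _ hx hy => rw [mul_add, hx, hy, add_zero]
  have h3 := h2 1 h1
  rwa [mul_one] at h3

/-- Schur's lemma for central elements. -/
theorem schur (S : IrrSys W) (i : S.I) (a : MonoidAlgebra ℂ W) (ha : ∀ b, a * b = b * a) :
    ∃ μ : ℂ, ∀ x, (S.ρ i).asAlgebraHom a x = μ • x := by
  have := S.nt i
  obtain ⟨μ, hμ⟩ := Module.End.exists_eigenvalue ((S.ρ i).asAlgebraHom a)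
  refine ⟨μ, ?_⟩
  have h1 : ∀ w, ∀ x ∈ Module.End.eigenspace ((S.ρ i).asAlgebraHom a) μ,
      S.ρ i w x ∈ Module.End.eigenspace ((S.ρ i).asAlgebraHom a) μ := by
    intro w x hx
    rw [Module.End.mem_eigenspace_iff] at hx ⊢
    have h2 : (S.ρ i).asAlgebraHom a * (S.ρ i).asAlgebraHom (MonoidAlgebra.single w 1) =
        (S.ρ i).asAlgebraHom (MonoidAlgebra.single w 1) * (S.ρ i).asAlgebraHom a := by
      rw [← map_mul, ha, map_mul]
    have h3 := congrArg (fun f => f x) h2
    simp only [Module.End.mul_apply, Representation.asAlgebraHom_single, one_smul] at h3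
    rw [h3, hx, map_smul]
  rcases S.irr i _ h1 with h | h
  · exact absurd h hμ
  · intro x
    have : x ∈ Module.End.eigenspace ((S.ρ i).asAlgebraHom a) μ := by rw [h]; trivial
    exact Module.End.mem_eigenspace_iff.mp this

end

/-- An operator which is multiplied by a number which is not a root of unity under conjugation is
nilpotent. -/
theorem nilp {V : Type*} [AddCommGroup V] [Module ℂ V] [FiniteDimensional ℂ V]
    (N G : Module.End ℂ V) (hG : Function.Injective G) (c : ℂ) (hc : c ≠ 0)
    (hc' : ∀ k : ℕ, 0 < k → c ^ k ≠ 1) (h : ∀ x, N (G x) = c • G (N x)) : IsNilpotent N := by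
  have h1 : ∀ μ, μ ≠ 0 → ¬ N.HasEigenvalue μ := by
    intro μ hμ hN
    have h2 : ∀ k : ℕ, N.HasEigenvalue (c ^ k * μ) := by
      intro k
      induction k with
      | zero => rwa [pow_zero, one_mul]
      | succ k ih =>
        obtain ⟨v, hv⟩ := ih.exists_hasEigenvector
        refine Module.End.hasEigenvalue_of_hasEigenvector (x := G v) ⟨?_, ?_⟩
        · rw [Module.End.mem_eigenspace_iff, h, hv.apply_eq_smul, map_smul, smul_smul]
          congr 1
          ring
        · intro h0
          exact hv.2 (hG (by rw [h0, map_zero]))
    have h3 : (Set.range fun k : ℕ => c ^ k * μ).Finite :=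
      N.finite_hasEigenvalue.subset (by rintro _ ⟨k, rfl⟩; exact h2 k)
    have h4 : Function.Injective fun k : ℕ => c ^ k * μ := by
      intro k l hkl
      simp only at hkl
      have h5 : c ^ k = c ^ l := mul_right_cancel₀ hμ hkl
      by_contra hne
      rcases lt_or_gt_of_ne hne with h6 | h6
      · obtain ⟨e, rfl⟩ := Nat.exists_eq_add_of_lt h6
        rw [add_assoc, pow_add] at h5
        exact hc' (e + 1) (by omega)
          (mul_left_cancel₀ (pow_ne_zero k hc) (by rw [← h5, mul_one]))
      · obtain ⟨e, rfl⟩ := Nat.exists_eq_add_of_lt h6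
        rw [add_assoc, pow_add] at h5
        exact hc' (e + 1) (by omega)
          (mul_left_cancel₀ (pow_ne_zero l hc) (by rw [h5, mul_one]))
    exact Set.infinite_range_of_injective h4 h3
  have h2 : N.maxGenEigenspace 0 = ⊤ := by
    rw [← Module.End.iSup_maxGenEigenspace_eq_top N]
    apply le_antisymm
    · exact le_iSup (fun μ => N.maxGenEigenspace μ) 0
    · refine iSup_le fun μ => ?_
      by_cases hμ : μ = 0
      · rw [hμ]
      · have h3 : N.maxGenEigenspace μ = ⊥ := by
          by_contra hne
          obtain ⟨x, hx, hx0⟩ := Submodule.exists_mem_ne_zero_of_ne_bot hne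
          rw [Module.End.mem_maxGenEigenspace] at hx
          obtain ⟨k, hk⟩ := hx
          apply h1 μ hμ
          -- the least such `k`
          have h4 : ¬ Function.Injective (N - μ • (1 : Module.End ℂ V)) := by
            intro hinj
            have h5 : Function.Injective ((N - μ • (1 : Module.End ℂ V)) ^ k) := by
              rw [Module.End.coe_pow]
              exact hinj.iterate k
            exact hx0 (h5 (by rw [hk, map_zero]))
          rw [Module.End.hasEigenvalue_iff, ne_eq, Submodule.eq_bot_iff]
          intro h5
          apply h4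
          rw [injective_iff_map_eq_zero]
          intro y hy
          apply h5 y
          rw [Module.End.mem_eigenspace_iff]
          rw [LinearMap.sub_apply, sub_eq_zero] at hy
          rw [hy]
          rfl
        rw [h3]
        exact bot_le
  rw [Module.End.isNilpotent_iff_of_finite]
  intro m
  have h3 : m ∈ N.maxGenEigenspace 0 := by rw [h2]; trivial
  rw [Module.End.mem_maxGenEigenspace] at h3
  obtain ⟨k, hk⟩ := h3
  exact ⟨k, by rwa [zero_smul, sub_zero] at hk⟩

end Pool.Agent.V5helper46.CM
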