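import Pool.Agent.V5helper46.CM.TR5
import Pool.Agent.V5helper46.CM.TR6

/-!
# Project CM, job TRACE, part 7: central elements of nonzero degree are nilpotent
-/

namespace Pool.Agent.V5helper46.CM

open Pool.Agent.V5helper32.CM MvPolynomial
open scoped TensorProduct

section

variable {n : ℕ} {W : Type} [Group W] [Fintype W] {D : Rd n W} {H : Type} [Ring H] [Algebra ℂ H]

theorem scale_mon (c : ℂ) (m : Fin n →₀ ℕ) (r : ℂ) :
    aeval (fun a => C c * X a : Fin n → MvPolynomial (Fin n) ℂ) (monomial m r) =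
      c ^ m.degree • monomial m r := by
  rw [aeval_monomial, Finsupp.prod, Finset.prod_congr rfl (fun a _ => mul_pow (C c) (X a) (m a)),
    Finset.prod_mul_distrib, Finset.prod_pow_eq_pow_sum, algebraMap_eq, monomial_eq, Finsupp.prod,
    ← Finsupp.degree_apply, ← C_pow, smul_eq_C_mul]
  ring

theorem scale_hom (c : ℂ) (f : MvPolynomial (Fin n) ℂ) (e : ℕ) (hf : f.IsHomogeneous e) :
    aeval (fun a => C c * X a : Fin n → MvPolynomial (Fin n) ℂ) f = c ^ e • f := by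
  conv_lhs => rw [f.as_sum]
  conv_rhs => rw [f.as_sum]
  rw [map_sum, Finset.smul_sum]
  apply Finset.sum_congr rfl
  intro m hm
  rw [scale_mon]
  congr 2
  by_contra h
  exact (mem_support_iff.mp hm) (hf.coeff_eq_zero h)

theorem scale_alg (φ φ' : MvPolynomial (Fin n) ℂ →ₐ[ℂ] H) (c : ℂ)
    (h : ∀ a, φ' (X a) = c • φ (X a)) (f : MvPolynomial (Fin n) ℂ) (e : ℕ)
    (hf : f.IsHomogeneous e) : φ' f = c ^ e • φ f := by
  have h1 : φ' = φ.comp (aeval (fun a => C c * X a : Fin n → MvPolynomial (Fin n) ℂ)) := by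
    apply MvPolynomial.algHom_ext
    intro a
    rw [AlgHom.comp_apply, aeval_X, h, ← smul_eq_C_mul, map_smul]
  rw [h1, AlgHom.comp_apply, scale_hom c f e hf, map_smul]

theorem γ_i (Φ : Full D H) (s : ℂˣ) (f : MvPolynomial (Fin n) ℂ) (e : ℕ)
    (hf : f.IsHomogeneous e) : Φ.γ s (Φ.T.i f) = (s : ℂ) ^ e • Φ.T.i f :=
  scale_alg Φ.T.i ((Φ.γ s).comp Φ.T.i) s (fun a => Φ.γi s a) f e hf

theorem γ_j (Φ : Full D H) (s : ℂˣ) (f : MvPolynomial (Fin n) ℂ) (e : ℕ)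
    (hf : f.IsHomogeneous e) : Φ.γ s (Φ.T.j f) = ((s⁻¹ : ℂˣ) : ℂ) ^ e • Φ.T.j f :=
  scale_alg Φ.T.j ((Φ.γ s).comp Φ.T.j) _ (fun a => Φ.γj s a) f e hf

theorem γ_γ (Φ : Full D H) (s : ℂˣ) (h : H) : Φ.γ s⁻¹ (Φ.γ s h) = h := by
  have h1 : ∀ f, Φ.γ s⁻¹ (Φ.γ s (Φ.T.i f)) = Φ.T.i f := by
    intro f
    have : ((Φ.γ s⁻¹).comp ((Φ.γ s).comp Φ.T.i)) = Φ.T.i := by
      apply MvPolynomial.algHom_ext
      intro a
      rw [AlgHom.comp_apply, AlgHom.comp_apply, Φ.γi, map_smul, Φ.γi, smul_smul,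
        ← Units.val_mul, mul_inv_cancel, Units.val_one, one_smul]
    exact congrArg (fun φ : MvPolynomial (Fin n) ℂ →ₐ[ℂ] H => φ f) this
  have h2 : ∀ f, Φ.γ s⁻¹ (Φ.γ s (Φ.T.j f)) = Φ.T.j f := by
    intro f
    have : ((Φ.γ s⁻¹).comp ((Φ.γ s).comp Φ.T.j)) = Φ.T.j := by
      apply MvPolynomial.algHom_ext
      intro a
      rw [AlgHom.comp_apply, AlgHom.comp_apply, Φ.γj, map_smul, Φ.γj, smul_smul,
        ← Units.val_mul, mul_inv_cancel, Units.val_one, one_smul]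
    exact congrArg (fun φ : MvPolynomial (Fin n) ℂ →ₐ[ℂ] H => φ f) this
  induction h using ind Φ.T with
  | h1 f w g => rw [map_mul, map_mul, map_mul, map_mul, h1, h2, Φ.γu, Φ.γu]
  | h2 a b ha hb => rw [map_add, map_add, ha, hb]

variable {Λ : Type} [Ring Λ] [Algebra ℂ Λ] {Sp : Type} [AddCommGroup Sp] [Module ℂ Sp]
  [Module Λ Sp] [IsScalarTower ℂ Λ Sp] (A : Su D H Λ Sp)

theorem γ_F (s : ℂˣ) (a : Fin n) : ∃ c : ℂ, A.Φ.γ s (A.F a : H) = c • (A.F a : H) :=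
  ⟨_, by rw [A.hF]; exact γ_i A.Φ s _ _ (A.CF.hom a)⟩

theorem γ_G (s : ℂˣ) (a : Fin n) : ∃ c : ℂ, A.Φ.γ s (A.G a : H) = c • (A.G a : H) :=
  ⟨_, by rw [A.hG]; exact γ_j A.Φ s _ _ (A.CG.hom a)⟩

theorem Γ_ex (s : ℂˣ) : ∃ Γ : Sp →ₗ[ℂ] Sp, ∀ m, A.ψ (Γ m) = A.Φ.γ s (A.ψ m) := by
  obtain ⟨L, hL⟩ := LinearMap.exists_leftInverse_of_injective A.ψ
    (LinearMap.ker_eq_bot.mpr A.ψinj)
  refine ⟨L ∘ₗ (A.Φ.γ s).toLinearMap ∘ₗ A.ψ, fun m => ?_⟩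
  have h1 : A.Φ.γ s (eb A.Φ.T) = eb A.Φ.T := by
    unfold eb
    rw [map_sum]
    exact Finset.sum_congr rfl fun w _ => A.Φ.γu s w
  have h2 : ∃ m', A.ψ m' = A.Φ.γ s (A.ψ m) := by
    rw [A.ψran]
    constructor
    · change eb A.Φ.T * _ = _
      rw [← h1, ← map_mul, ψ_l, map_smul]
    · change _ * eb A.Φ.T = _
      rw [← h1, ← map_mul, ψ_r, map_smul]
  obtain ⟨m', hm'⟩ := h2
  change A.ψ (L (A.Φ.γ s (A.ψ m))) = _
  rw [← hm']
  have h3 : L (A.ψ m') = m' := congrArg (fun f : Sp →ₗ[ℂ] Sp => f m') hL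
  rw [h3]

theorem lz (z : Zc H) (ζ : ℂ) (hz : A.σ z = ζ • z) (l : Λ) (m : Sp) :
    ∃ m', l • A.s.ι z • m = A.s.ι z • m' := by
  obtain ⟨c, rfl⟩ := A.s.gen l
  have h1 : ∀ s : Finset ℕ, ∃ m', (∑ k ∈ s, A.s.ι (c k) * A.s.t ^ k) • A.s.ι z • m =
      A.s.ι z • m' := by
    intro s
    induction s using Finset.induction_on with
    | empty => exact ⟨0, by rw [Finset.sum_empty, zero_smul, smul_zero]⟩
    | insert k s hk ih =>
      obtain ⟨m', hm'⟩ := ih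
      obtain ⟨m'', hm''⟩ := tz A z ζ hz k m
      refine ⟨A.s.ι (c k) • m'' + m', ?_⟩
      rw [Finset.sum_insert hk, add_smul, hm', mul_smul, hm'', smul_add, smul_smul, smul_smul,
        ← map_mul, ← map_mul, mul_comm]
  exact h1 _

theorem Γ_z (s : ℂˣ) (Γ : Sp →ₗ[ℂ] Sp) (hΓ : ∀ m, A.ψ (Γ m) = A.Φ.γ s (A.ψ m)) (z : Zc H)
    (c : ℂ) (hz : A.Φ.γ s (z : H) = c • (z : H)) (m : Sp) :
    Γ (A.s.ι z • m) = c • A.s.ι z • Γ m := by
  apply A.ψinj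
  rw [hΓ, A.ψz, map_mul, hz, map_smul, A.ψz, hΓ, smul_mul_assoc]

theorem Γ_NN (s : ℂˣ) (Γ : Sp →ₗ[ℂ] Sp) (hΓ : ∀ m, A.ψ (Γ m) = A.Φ.γ s (A.ψ m)) (x : Sp)
    (hx : x ∈ NN A) : Γ x ∈ NN A := by
  have h1 : ∀ l : Λ, Γ (l • x) ∈ NN A := by
    induction hx using Submodule.span_induction with
    | mem x hx =>
      obtain ⟨a, m, rfl | rfl⟩ := hx
      · intro l
        obtain ⟨m', hm'⟩ := lz A _ _ (σF A a) l m
        obtain ⟨c, hc⟩ := γ_F A s a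
        rw [hm', Γ_z A s Γ hΓ _ c hc]
        exact Submodule.smul_of_tower_mem _ _ (Submodule.subset_span ⟨a, _, Or.inl rfl⟩)
      · intro l
        obtain ⟨m', hm'⟩ := lz A _ _ (σG A a) l m
        obtain ⟨c, hc⟩ := γ_G A s a
        rw [hm', Γ_z A s Γ hΓ _ c hc]
        exact Submodule.smul_of_tower_mem _ _ (Submodule.subset_span ⟨a, _, Or.inr rfl⟩)
    | zero => intro l; rw [smul_zero, map_zero]; exact Submodule.zero_mem _
    | add x y _ _ hx hy =>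
      intro l
      rw [smul_add, map_add]
      exact Submodule.add_mem _ (hx l) (hy l)
    | smul a x _ hx => intro l; rw [smul_smul]; exact hx _
  have := h1 1
  rwa [one_smul] at this

theorem GV_ex (s : ℂˣ) (Γ : Sp →ₗ[ℂ] Sp) (hΓ : ∀ m, A.ψ (Γ m) = A.Φ.γ s (A.ψ m)) :
    ∃ GV : Module.End ℂ (Sp ⧸ NN A), ∀ m,
      GV (Submodule.Quotient.mk m) = Submodule.Quotient.mk (Γ m) :=
  ⟨(Submodule.liftQ ((NN A).restrictScalars ℂ) (((NN A).mkQ.restrictScalars ℂ) ∘ₗ Γ)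
      (fun m hm => (Submodule.Quotient.mk_eq_zero _).mpr (Γ_NN A s Γ hΓ m hm))) ∘ₗ
    (Submodule.Quotient.restrictScalarsEquiv ℂ (NN A)).symm.toLinearMap, fun _ => rfl⟩

instance finV : FiniteDimensional ℂ (Sp ⧸ NN A) := Module.Finite.equiv (ThV A).symm

theorem deg_nil (z : Zc H) (d : ℤ) (hd : d ≠ 0)
    (hz : ∀ s, A.Φ.γ s (z : H) = ((s ^ d : ℂˣ) : ℂ) • (z : H)) :
    ∃ K, ∀ x : Sp ⧸ NN A, A.s.ι z ^ K • x = 0 := by
  have h2 : (2 : ℂ) ≠ 0 := two_ne_zero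
  set s : ℂˣ := Units.mk0 2 h2 with hs
  obtain ⟨Γ, hΓ⟩ := Γ_ex A s
  obtain ⟨Γ', hΓ'⟩ := Γ_ex A s⁻¹
  obtain ⟨GV, hGV⟩ := GV_ex A s Γ hΓ
  obtain ⟨GV', hGV'⟩ := GV_ex A s⁻¹ Γ' hΓ'
  have hinj : Function.Injective GV := by
    apply Function.LeftInverse.injective (g := GV')
    intro x
    obtain ⟨m, rfl⟩ := Submodule.Quotient.mk_surjective _ x
    rw [hGV, hGV']
    congr 1
    apply A.ψinj
    rw [hΓ', hΓ, γ_γ]
  set N : Module.End ℂ (Sp ⧸ NN A) := Algebra.lsmul ℂ ℂ (Sp ⧸ NN A) (A.s.ι z) with hN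
  have hNx : ∀ x, N x = A.s.ι z • x := fun x => rfl
  set c : ℂ := ((s ^ d : ℂˣ) : ℂ)⁻¹ with hc
  have hc0 : ((s ^ d : ℂˣ) : ℂ) ≠ 0 := Units.ne_zero _
  have h3 : ∀ x, N (GV x) = c • GV (N x) := by
    intro x
    obtain ⟨m, rfl⟩ := Submodule.Quotient.mk_surjective _ x
    have h4 : ∀ m : Sp, N (Submodule.Quotient.mk m) = Submodule.Quotient.mk (A.s.ι z • m) :=
      fun m => rfl
    rw [hGV, h4, h4, hGV, Γ_z A s Γ hΓ z _ (hz s)]
    have h5 : (Submodule.Quotient.mk (((s ^ d : ℂˣ) : ℂ) • A.s.ι z • Γ m) : Sp ⧸ NN A) =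
      ((s ^ d : ℂˣ) : ℂ) • Submodule.Quotient.mk (A.s.ι z • Γ m) := rfl
    rw [h5, hc, inv_smul_smul₀ hc0]
  have h4 : IsNilpotent N := by
    apply nilp N GV hinj c (inv_ne_zero hc0) _ h3
    intro k hk h5
    have h6 : ‖c‖ ^ k = 1 := by rw [← norm_pow, h5, norm_one]
    rw [hc, norm_inv, Units.val_zpow_eq_zpow_val, norm_zpow, hs, Units.val_mk0, Complex.norm_two,
      inv_pow, inv_eq_one, ← zpow_natCast, ← zpow_mul] at h6
    have h7 : d * (k : ℤ) ≠ 0 := mul_ne_zero hd (by omega)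
    exact h7 ((zpow_eq_one_iff_right₀ (by norm_num) (by norm_num)).mp h6)
  obtain ⟨K, hK⟩ := h4
  refine ⟨K, fun x => ?_⟩
  have h5 : (N ^ K) x = A.s.ι z ^ K • x := by
    rw [hN, ← map_pow]
    rfl
  rw [← h5, hK]
  rfl

end

end Pool.Agent.V5helper46.CM
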