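import Pool.Agent.V5helper46.CM.TR7

/-!
# Project CM, job TRACE, part 8: the idempotent of a family
-/

namespace Pool.Agent.V5helper46.CM

open Pool.Agent.V5helper32.CM MvPolynomial
open scoped TensorProduct

section

variable {n : ℕ} {W : Type} [Group W] [Fintype W] {D : Rd n W} {H : Type} [Ring H] [Algebra ℂ H]

theorem cong_add (Φ : Full D H) (z z' : Zc H) (a a' : MonoidAlgebra ℂ W) (h : Cong Φ z a)
    (h' : Cong Φ z' a') : Cong Φ (z + z') (a + a') := by
  have := Submodule.add_mem _ h h'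
  unfold Cong
  convert this using 1
  rw [map_add]
  change (z : H) + (z' : H) - _ = _
  abel

theorem cong_smul (Φ : Full D H) (c : ℂ) (z : Zc H) (a : MonoidAlgebra ℂ W) (h : Cong Φ z a) :
    Cong Φ (c • z) (c • a) := by
  have := Submodule.smul_of_tower_mem (JJ Φ) c h
  unfold Cong
  convert this using 1
  rw [map_smul, smul_sub]
  rfl

theorem cong_alg (Φ : Full D H) (c : ℂ) :
    Cong Φ (algebraMap ℂ (Zc H) c) (algebraMap ℂ (MonoidAlgebra ℂ W) c) := by
  unfold Cong
  rw [AlgHom.commutes]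
  change algebraMap ℂ H c - algebraMap ℂ H c ∈ _
  rw [sub_self]
  exact Submodule.zero_mem _

theorem cong_sub (Φ : Full D H) (z z' : Zc H) (a a' : MonoidAlgebra ℂ W) (h : Cong Φ z a)
    (h' : Cong Φ z' a') : Cong Φ (z - z') (a - a') := by
  have := Submodule.sub_mem _ h h'
  unfold Cong
  convert this using 1
  rw [map_sub]
  change (z : H) - (z' : H) - _ = _
  abel

theorem cong_mul (hOM : S_OM) (Φ : Full D H) (z z' : Zc H) (a a' : MonoidAlgebra ℂ W)
    (h : Cong Φ z a) (h' : Cong Φ z' a') : Cong Φ (z * z') (a * a') :=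
  (hOM n W D H Φ).2.2.2.1 z z' a a' h h'

theorem cong_aeval (hOM : S_OM) (Φ : Full D H) (z : Zc H) (a : MonoidAlgebra ℂ W)
    (h : Cong Φ z a) (P : Polynomial ℂ) : Cong Φ (Polynomial.aeval z P) (Polynomial.aeval a P) := by
  induction P using Polynomial.induction_on' with
  | add P Q hP hQ => rw [map_add, map_add]; exact cong_add Φ _ _ _ _ hP hQ
  | monomial k c =>
    rw [Polynomial.aeval_monomial, Polynomial.aeval_monomial]
    refine cong_mul hOM Φ _ _ _ _ (cong_alg Φ c) ?_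
    induction k with
    | zero =>
      have := cong_alg Φ 1
      rw [map_one, map_one] at this
      rw [pow_zero, pow_zero]
      exact this
    | succ k ih => rw [pow_succ, pow_succ]; exact cong_mul hOM Φ _ _ _ _ ih h

theorem step1 (hOM : S_OM) (Φ : Full D H) (S : IrrSys W) (p : Zc H →ₐ[ℂ] ℂ) (i : S.I)
    (hi : ¬ Fam Φ p (S.ρ i)) : ∃ (z : Zc H) (a : MonoidAlgebra ℂ W), (∀ s, Φ.γ s z = z) ∧
      Cong Φ z a ∧ p z = 1 ∧ (S.ρ i).asAlgebraHom a = 0 := by
  unfold Fam at hi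
  push Not at hi
  obtain ⟨z, a, hz, hza, x, hx⟩ := hi
  obtain ⟨μ, hμ⟩ := schur S i a ((hOM n W D H Φ).2.2.1 z a hza)
  have hne : p z - μ ≠ 0 := by
    intro h0
    apply hx
    rw [hμ, sub_eq_zero.mp h0]
  refine ⟨(p z - μ)⁻¹ • (z - algebraMap ℂ (Zc H) μ),
    (p z - μ)⁻¹ • (a - algebraMap ℂ (MonoidAlgebra ℂ W) μ), ?_, ?_, ?_, ?_⟩
  · intro s
    change Φ.γ s ((p z - μ)⁻¹ • ((z : H) - algebraMap ℂ H μ)) =
      (p z - μ)⁻¹ • ((z : H) - algebraMap ℂ H μ)
    rw [map_smul, map_sub, hz, AlgHom.commutes]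
  · exact cong_smul Φ _ _ _ (cong_sub Φ _ _ _ _ hza (cong_alg Φ μ))
  · rw [map_smul, map_sub, AlgHom.commutes, Algebra.algebraMap_self, RingHom.id_apply,
      smul_eq_mul, inv_mul_cancel₀ hne]
  · rw [map_smul, map_sub, AlgHom.commutes]
    have : (S.ρ i).asAlgebraHom a - algebraMap ℂ _ μ = 0 := by
      apply LinearMap.ext
      intro x
      rw [LinearMap.sub_apply, hμ]
      change μ • x - μ • x = 0
      rw [sub_self]
    rw [this, smul_zero]

theorem step2 (hOM : S_OM) (Φ : Full D H) (S : IrrSys W) (p : Zc H →ₐ[ℂ] ℂ) :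
    ∃ (z : Zc H) (a : MonoidAlgebra ℂ W), Cong Φ z a ∧ p z = 1 ∧
      (∀ i, ¬ Fam Φ p (S.ρ i) → (S.ρ i).asAlgebraHom a = 0) ∧
      (∀ i, Fam Φ p (S.ρ i) → (S.ρ i).asAlgebraHom a = 1) := by
  classical
  have h1 : ∀ s : Finset S.I, ∃ (z : Zc H) (a : MonoidAlgebra ℂ W), (∀ s, Φ.γ s z = z) ∧
      Cong Φ z a ∧ p z = 1 ∧ (∀ i ∈ s, ¬ Fam Φ p (S.ρ i) → (S.ρ i).asAlgebraHom a = 0) := by
    intro s
    induction s using Finset.induction_on with
    | empty =>
      refine ⟨1, 1, ?_, ?_, map_one _, ?_⟩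
      · intro s
        change Φ.γ s (1 : H) = 1
        exact map_one _
      · have := cong_alg Φ 1
        rwa [map_one, map_one] at this
      · intro i hi
        exact absurd hi (Finset.notMem_empty i)
    | insert j s hj ih =>
      obtain ⟨z, a, hz, hza, hp, ha⟩ := ih
      by_cases hF : Fam Φ p (S.ρ j)
      · refine ⟨z, a, hz, hza, hp, ?_⟩
        intro i hi hi'
        rcases Finset.mem_insert.mp hi with rfl | hi
        · exact absurd hF hi'
        · exact ha i hi hi'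
      · obtain ⟨z', a', hz', hza', hp', ha'⟩ := step1 hOM Φ S p j hF
        refine ⟨z * z', a * a', ?_, cong_mul hOM Φ _ _ _ _ hza hza', ?_, ?_⟩
        · intro t
          change Φ.γ t ((z : H) * z') = (z : H) * z'
          rw [map_mul, hz, hz']
        · rw [map_mul, hp, hp', one_mul]
        · intro i hi hi'
          rw [map_mul]
          rcases Finset.mem_insert.mp hi with rfl | hi
          · rw [ha', mul_zero]
          · rw [ha i hi hi', zero_mul]
  obtain ⟨z, a, hz, hza, hp, ha⟩ := h1 Finset.univ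
  refine ⟨z, a, hza, hp, fun i hi => ha i (Finset.mem_univ i) hi, fun i hi => ?_⟩
  apply LinearMap.ext
  intro x
  rw [hi z a hz hza x, hp, one_smul]
  rfl

variable {Λ : Type} [Ring Λ] [Algebra ℂ Λ] {Sp : Type} [AddCommGroup Sp] [Module ℂ Sp]
  [Module Λ Sp] [IsScalarTower ℂ Λ Sp] (A : Su D H Λ Sp)

theorem step3 (hOM : S_OM) (S : IrrSys W) (p : Zc H →ₐ[ℂ] ℂ) :
    ∃ (z : Zc H) (a : MonoidAlgebra ℂ W), Cong A.Φ z a ∧ p z = 1 ∧
      (∀ i, ¬ Fam A.Φ p (S.ρ i) → (S.ρ i).asAlgebraHom a = 0) ∧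
      (∀ i, Fam A.Φ p (S.ρ i) → (S.ρ i).asAlgebraHom a = 1) ∧
      (∀ x : Sp ⧸ NN A, A.s.ι z • A.s.ι z • x = A.s.ι z • x) := by
  obtain ⟨y, a, hya, hp, h0, h1⟩ := step2 hOM A.Φ S p
  have haa : a * a - a = 0 := by
    apply faith S
    intro i
    by_cases hF : Fam A.Φ p (S.ρ i)
    · rw [map_sub, map_mul, h1 i hF, mul_one, sub_self]
    · rw [map_sub, map_mul, h0 i hF, mul_zero, sub_self]
  have hc : Cong A.Φ (y * y - y) 0 := by
    rw [← haa]
    exact cong_sub A.Φ _ _ _ _ (cong_mul hOM A.Φ _ _ _ _ hya hya) hya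
  obtain ⟨K, hK⟩ := NIL A _ hc
  have hcop : IsCoprime ((Polynomial.X : Polynomial ℂ) ^ (K + 1))
      ((1 - Polynomial.X : Polynomial ℂ) ^ (K + 1)) := by
    apply IsCoprime.pow
    exact ⟨1, 1, by ring⟩
  obtain ⟨α, β, hαβ⟩ := hcop
  obtain ⟨P, hP⟩ : ∃ P : Polynomial ℂ, P = α * Polynomial.X ^ (K + 1) := ⟨_, rfl⟩
  have huv : (Polynomial.X : Polynomial ℂ) ^ (K + 1) * (1 - Polynomial.X) ^ (K + 1) =
      (-1) ^ (K + 1) * (Polynomial.X * Polynomial.X - Polynomial.X) ^ (K + 1) := by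
    rw [← mul_pow, ← mul_pow]
    congr 1
    ring
  have e2 : P * P - P = (-(α * β) * (-1) ^ (K + 1)) *
      (Polynomial.X * Polynomial.X - Polynomial.X) ^ (K + 1) := by
    rw [hP]
    linear_combination (α * Polynomial.X ^ (K + 1)) * hαβ - (α * β) * huv
  have hP1 : P.eval 1 = 1 := by
    have := congrArg (Polynomial.eval 1) hαβ
    rw [Polynomial.eval_add, Polynomial.eval_mul (p := β), Polynomial.eval_pow,
      Polynomial.eval_sub, Polynomial.eval_X, Polynomial.eval_one, sub_self,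
      zero_pow (Nat.succ_ne_zero K), mul_zero, add_zero, ← hP] at this
    exact this
  refine ⟨Polynomial.aeval y P, Polynomial.aeval a P, cong_aeval hOM A.Φ _ _ hya P, ?_, ?_, ?_, ?_⟩
  · rw [← Polynomial.aeval_algHom_apply, hp, Polynomial.coe_aeval_eq_eval, hP1]
  · intro i hi
    rw [← Polynomial.aeval_algHom_apply, h0 i hi, hP, map_mul, map_pow, Polynomial.aeval_X,
      zero_pow (Nat.succ_ne_zero K), mul_zero]
  · intro i hi
    rw [← Polynomial.aeval_algHom_apply, h1 i hi]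
    have : Polynomial.aeval (1 : Module.End ℂ (S.E i)) P =
        algebraMap ℂ (Module.End ℂ (S.E i)) (P.eval 1) := by
      rw [← map_one (algebraMap ℂ (Module.End ℂ (S.E i))), Polynomial.aeval_algebraMap_apply,
        Polynomial.coe_aeval_eq_eval]
    rw [this, hP1, map_one]
  · intro x
    have e1 : Polynomial.aeval y P * Polynomial.aeval y P - Polynomial.aeval y P =
        Polynomial.aeval y (-(α * β) * (-1) ^ (K + 1)) * (y * y - y) * (y * y - y) ^ K := by
      have e7 := congrArg (Polynomial.aeval y) e2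
      rw [map_sub, map_mul, map_mul (Polynomial.aeval y) (-(α * β) * (-1) ^ (K + 1)), map_pow,
        map_sub, map_mul (Polynomial.aeval y) Polynomial.X, Polynomial.aeval_X] at e7
      rw [mul_assoc _ (y * y - y), ← pow_succ']
      exact e7
    have e8 : A.s.ι (Polynomial.aeval y P * Polynomial.aeval y P - Polynomial.aeval y P) • x =
        0 := by
      rw [e1, map_mul, map_pow, mul_smul, hK, smul_zero]
    rw [map_sub, map_mul, sub_smul, mul_smul, sub_eq_zero] at e8
    exact e8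

end

end Pool.Agent.V5helper46.CM
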